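import Pool.Agent.Lib.MP_3e612f_nt.NF.Base

/-! Rigidity of 4-cycles (paper, Part K: K-Cyc). If `p^t B_q ≡ q^t B'_p` approximately modulo 1 for a positive proportion of the pairs `(p, q)` of
different primes, then there is one `γ` with `B_q ≡ q^t γ` approximately modulo 1 for a positive proportion of the `q`. -/

set_option autoImplicit false

namespace Pool.Agent.Lib.MP_3e612f_nt.NF

open Finset
open Pool.Agent.Lib.MP_3e612f_nt.MR (mu ex)

/-- the number attached to an edge -/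
theorem edge_gamma (P Q : ℕ) (hQ : 1 ≤ Q) (hPQ : Nat.Coprime P Q) (b b' τ : ℝ) (hτ : 0 ≤ τ) (h : dZ (P * b - Q * b') ≤ τ) :
    ∃ γ : ℝ, ∃ z w : ℤ, Q * γ - b = z ∧ |P * γ - b' - w| ≤ τ := by
  obtain ⟨a, ha⟩ := exists_int (P * b - Q * b')
  rw [← ha] at h
  have hQ0 : (1 : ℝ) ≤ Q := by exact_mod_cast hQ
  have hQ1 : (Q : ℝ) ≠ 0 := by positivity
  -- Bezout
  have hbez : (P : ℤ) * Nat.gcdA P Q + Q * Nat.gcdB P Q = 1 := by
    have := Nat.gcd_eq_gcd_ab P Q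
    rw [hPQ] at this
    push_cast at this
    linarith
  set x : ℤ := a * Nat.gcdA P Q with hx
  set y : ℤ := a * Nat.gcdB P Q with hy
  have hxy : (P : ℤ) * x + Q * y = a := by
    rw [hx, hy]
    linear_combination a * hbez
  have hxy' : (P : ℝ) * x + Q * y = a := by exact_mod_cast hxy
  refine ⟨(b - x) / Q, -x, y, ?_, ?_⟩
  · push_cast
    field_simp
    ring
  · have h1 : P * ((b - x) / Q) - b' - y = (P * b - Q * b' - a) / Q := by
      rw [← hxy']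
      field_simp
      ring
    rw [h1, abs_div, Nat.abs_cast, div_le_iff₀ (by positivity)]
    nlinarith

/-- the cycle lemma: integrality of the last difference -/
theorem cycle_dvd (P P2 Q Q2 : ℕ) (hcop : Nat.Coprime P (Q * P2 * Q2)) (g1 g2 g3 g4 τ : ℝ) (a b c d : ℤ)
    (h12 : Q * (g1 - g2) = a) (h23 : |P2 * (g2 - g3) - b| ≤ 2 * τ) (h34 : Q2 * (g3 - g4) = c) (h41 : |P * (g4 - g1) - d| ≤ 2 * τ)
    (hsmall : 2 * τ * (Q * Q2 * P) + 2 * τ * (Q * P2 * Q2) < 1) : (P : ℤ) ∣ d := by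
  have h1 : |((a * P2 * Q2 * P + b * Q * Q2 * P + c * Q * P2 * P + d * (Q * P2 * Q2) : ℤ) : ℝ)| < 1 := by
    have h2 : ((a * P2 * Q2 * P + b * Q * Q2 * P + c * Q * P2 * P + d * (Q * P2 * Q2) : ℤ) : ℝ)
        = -((P2 * (g2 - g3) - b) * (Q * Q2 * P) + (P * (g4 - g1) - d) * (Q * P2 * Q2)) := by
      push_cast
      rw [← h12, ← h34]
      ring
    rw [h2, abs_neg]
    refine lt_of_le_of_lt (abs_add_le _ _) ?_
    rw [abs_mul (P2 * (g2 - g3) - b) (Q * Q2 * P), abs_mul (P * (g4 - g1) - d) (Q * P2 * Q2), abs_of_nonneg (by positivity : (0:ℝ) ≤ Q * Q2 * P), abs_of_nonneg (by positivity : (0:ℝ) ≤ Q * P2 * Q2)]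
    refine lt_of_le_of_lt (add_le_add (mul_le_mul_of_nonneg_right h23 (by positivity)) (mul_le_mul_of_nonneg_right h41 (by positivity))) hsmall
  have h3 : a * P2 * Q2 * P + b * Q * Q2 * P + c * Q * P2 * P + d * (Q * P2 * Q2) = 0 := by
    have : |a * P2 * Q2 * P + b * Q * Q2 * P + c * Q * P2 * P + d * (Q * P2 * Q2)| < 1 := by exact_mod_cast h1
    exact Int.abs_lt_one_iff.mp this
  have h4 : (P : ℤ) ∣ d * (Q * P2 * Q2) := by
    refine ⟨-(a * P2 * Q2 + b * Q * Q2 + c * Q * P2), ?_⟩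
    linear_combination h3
  have h5 : IsCoprime (P : ℤ) ((Q * P2 * Q2 : ℕ) : ℤ) := Nat.isCoprime_iff_coprime.mpr hcop
  push_cast at h5
  exact h5.dvd_of_dvd_mul_right h4

/-- convexity of the square -/
theorem sq_wsum_le {α : Type} (s : Finset α) (w f : α → ℝ) (hw : ∀ i ∈ s, 0 ≤ w i) (h1 : ∑ i ∈ s, w i = 1) :
    (∑ i ∈ s, w i * f i) ^ 2 ≤ ∑ i ∈ s, w i * f i ^ 2 := by
  set m : ℝ := ∑ i ∈ s, w i * f i with hm
  have h2 : 0 ≤ ∑ i ∈ s, w i * (f i - m) ^ 2 := sum_nonneg fun i hi => mul_nonneg (hw i hi) (sq_nonneg _)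
  have h3 : ∑ i ∈ s, w i * (f i - m) ^ 2 = ∑ i ∈ s, w i * f i ^ 2 - 2 * m * ∑ i ∈ s, w i * f i + m ^ 2 * ∑ i ∈ s, w i := by
    rw [mul_sum s (fun i => w i * f i) (2 * m), mul_sum s w (m ^ 2), ← sum_sub_distrib, ← sum_add_distrib]
    exact sum_congr rfl fun i _ => by ring
  rw [h3, ← hm, h1] at h2
  linarith

/-- the weighted number of 4-cycles -/
theorem four_cycles (P : Finset ℕ) (w : ℕ → ℝ) (hw : ∀ p ∈ P, 0 ≤ w p) (hw1 : ∑ p ∈ P, w p = 1) (e : ℕ → ℕ → ℝ) (κ : ℝ) (hκ : 0 ≤ κ)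
    (h : κ ≤ ∑ p ∈ P, ∑ q ∈ P, w p * w q * e p q) :
    κ ^ 4 ≤ ∑ p ∈ P, ∑ q ∈ P, w p * w q * ∑ p' ∈ P, ∑ q' ∈ P, w p' * w q' * (e p q * e p' q * e p' q' * e p q') := by
  set A : ℝ := ∑ p ∈ P, ∑ q ∈ P, w p * w q * e p q with hA
  set g : ℕ → ℕ → ℝ := fun p p' => ∑ q ∈ P, w q * (e p q * e p' q) with hg
  have h1 : A ^ 2 ≤ ∑ p ∈ P, ∑ p' ∈ P, w p * w p' * g p p' := by
    have h2 : A = ∑ q ∈ P, w q * ∑ p ∈ P, w p * e p q := by
      rw [hA, sum_comm]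
      refine sum_congr rfl fun q _ => ?_
      rw [mul_sum]
      exact sum_congr rfl fun p _ => by ring
    rw [h2]
    refine (sq_wsum_le P w _ hw hw1).trans (le_of_eq ?_)
    have h3 : ∀ q ∈ P, w q * (∑ p ∈ P, w p * e p q) ^ 2 = ∑ p ∈ P, ∑ p' ∈ P, w p * w p' * (w q * (e p q * e p' q)) := by
      intro q _
      rw [sq, sum_mul_sum, mul_sum]
      refine sum_congr rfl fun p _ => ?_
      rw [mul_sum]
      exact sum_congr rfl fun p' _ => by ring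
    rw [sum_congr rfl h3, sum_comm]
    refine sum_congr rfl fun p _ => ?_
    rw [sum_comm]
    refine sum_congr rfl fun p' _ => ?_
    rw [hg, mul_sum]
  have h4 : (∑ p ∈ P, ∑ p' ∈ P, w p * w p' * g p p') ^ 2 ≤ ∑ p ∈ P, ∑ p' ∈ P, w p * w p' * g p p' ^ 2 := by
    have h5 := sq_wsum_le (P ×ˢ P) (fun x => w x.1 * w x.2) (fun x => g x.1 x.2) (fun x hx => by
      rw [mem_product] at hx
      exact mul_nonneg (hw _ hx.1) (hw _ hx.2)) (by
      rw [sum_product]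
      simp only
      rw [← sum_mul_sum, hw1, one_mul])
    rw [sum_product, sum_product] at h5
    exact h5
  have h6 : κ ^ 4 ≤ A ^ 4 := pow_le_pow_left₀ hκ h 4
  have h7 : A ^ 4 ≤ (∑ p ∈ P, ∑ p' ∈ P, w p * w p' * g p p') ^ 2 := by
    have : A ^ 4 = (A ^ 2) ^ 2 := by ring
    rw [this]
    exact pow_le_pow_left₀ (sq_nonneg _) h1 2
  refine h6.trans (h7.trans (h4.trans (le_of_eq ?_)))
  refine sum_congr rfl fun p _ => ?_
  have h8 : ∀ p' ∈ P, w p * w p' * g p p' ^ 2 = ∑ q ∈ P, ∑ q' ∈ P, w p * w q * (w p' * w q' * (e p q * e p' q * e p' q' * e p q')) := by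
    intro p' _
    rw [hg, sq, sum_mul_sum, mul_sum]
    refine sum_congr rfl fun q _ => ?_
    rw [mul_sum]
    exact sum_congr rfl fun q' _ => by ring
  rw [sum_congr rfl h8, sum_comm]
  refine sum_congr rfl fun q _ => ?_
  rw [mul_sum]
  refine sum_congr rfl fun p' _ => ?_
  rw [mul_sum]

/-- K-Cyc. -/
theorem cyc (t : ℕ) (ht : 1 ≤ t) (P : Finset ℕ) (hP : ∀ p ∈ P, p.Prime) (X : ℕ) (hX : ∀ p ∈ P, p ≤ X) (w : ℕ → ℝ)
    (hw : ∀ p ∈ P, 0 ≤ w p) (hw1 : ∑ p ∈ P, w p = 1) (ω : ℝ) (hω : ∀ p ∈ P, w p ≤ ω) (B B' : ℕ → ℝ) (κ τ : ℝ) (hκ : 0 ≤ κ) (hτ : 0 ≤ τ)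
    (hτX : 2 * τ * (X : ℝ) ^ (4 * t) < 1)
    (h : κ ≤ ∑ p ∈ P, ∑ q ∈ P, w p * w q * (if p ≠ q ∧ dZ ((p : ℝ) ^ t * B q - (q : ℝ) ^ t * B' p) ≤ τ then 1 else 0)) :
    ∃ γ : ℝ, κ ^ 4 - 2 * ω ≤ ∑ q ∈ P, (if dZ ((q : ℝ) ^ t * γ - B q) ≤ (X : ℝ) ^ t * τ then w q else 0) := by
  classical
  rcases le_or_gt (κ ^ 4 - 2 * ω) 0 with h0 | h0
  · refine ⟨0, h0.trans (sum_nonneg fun q hq => ?_)⟩
    split_ifs
    · exact hw q hq
    · exact le_rfl
  set E : ℕ → ℕ → Prop := fun p q => p ≠ q ∧ dZ ((p : ℝ) ^ t * B q - (q : ℝ) ^ t * B' p) ≤ τ with hE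
  set e : ℕ → ℕ → ℝ := fun p q => if E p q then 1 else 0 with he
  have he0 : ∀ p q, 0 ≤ e p q := fun p q => by rw [he]; dsimp only; split_ifs <;> norm_num
  have he1 : ∀ p q, e p q ≤ 1 := fun p q => by rw [he]; dsimp only; split_ifs <;> norm_num
  have hE1 : ∀ p q, e p q ≠ 0 → E p q := fun p q hpq => by
    by_contra hn
    exact hpq (by rw [he]; dsimp only; rw [if_neg hn])
  have h4 := four_cycles P w hw hw1 e κ hκ h
  -- nondegenerate cycles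
  set ee : ℕ → ℕ → ℕ → ℕ → ℝ := fun p q p' q' => e p q * e p' q * e p' q' * e p q' with hee
  have hee0 : ∀ p q p' q', 0 ≤ ee p q p' q' := fun p q p' q' => by
    rw [hee]; exact mul_nonneg (mul_nonneg (mul_nonneg (he0 _ _) (he0 _ _)) (he0 _ _)) (he0 _ _)
  have hee1 : ∀ p q p' q', ee p q p' q' ≤ 1 := fun p q p' q' => by
    rw [hee]
    exact mul_le_one₀ (mul_le_one₀ (mul_le_one₀ (he1 _ _) (he0 _ _) (he1 _ _)) (he0 _ _) (he1 _ _)) (he0 _ _) (he1 _ _)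
  set T : ℕ → ℕ → ℝ := fun p q => ∑ p' ∈ P, ∑ q' ∈ P, w p' * w q' * (if p ≠ p' ∧ q ≠ q' then ee p q p' q' else 0) with hT
  have hsplit : ∀ p ∈ P, ∀ q ∈ P, ∑ p' ∈ P, ∑ q' ∈ P, w p' * w q' * ee p q p' q' ≤ T p q + w p + w q := by
    intro p hp q hq
    have h1 : ∀ p' ∈ P, ∀ q' ∈ P, w p' * w q' * ee p q p' q' ≤
        w p' * w q' * (if p ≠ p' ∧ q ≠ q' then ee p q p' q' else 0) + w p' * w q' * (if p = p' then 1 else 0) + w p' * w q' * (if q = q' then 1 else 0) := by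
      intro p' hp' q' hq'
      have hww : 0 ≤ w p' * w q' := mul_nonneg (hw _ hp') (hw _ hq')
      rw [← mul_add, ← mul_add]
      refine mul_le_mul_of_nonneg_left ?_ hww
      have a1 := hee1 p q p' q'
      have a0 := hee0 p q p' q'
      by_cases c1 : p = p' <;> by_cases c2 : q = q' <;> simp [c1, c2] at a1 a0 ⊢ <;> linarith
    refine (sum_le_sum fun p' hp' => sum_le_sum fun q' hq' => h1 p' hp' q' hq').trans (le_of_eq ?_)
    simp only [sum_add_distrib]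
    rw [hT]
    dsimp only
    congr 1
    · congr 1
      have : ∀ p' ∈ P, ∑ q' ∈ P, w p' * w q' * (if p = p' then (1:ℝ) else 0) = if p = p' then w p' else 0 := by
        intro p' _
        split_ifs
        · simp only [mul_one]
          rw [← mul_sum, hw1, mul_one]
        · simp
      rw [sum_congr rfl this, sum_ite_eq, if_pos hp]
    · have : ∀ p' ∈ P, ∑ q' ∈ P, w p' * w q' * (if q = q' then (1:ℝ) else 0) = w p' * w q := by
        intro p' _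
        simp only [mul_ite, mul_one, mul_zero]
        rw [sum_ite_eq, if_pos hq]
      rw [sum_congr rfl this, ← sum_mul, hw1, one_mul]
  have hω0 : ∀ p ∈ P, 0 ≤ w p := hw
  have hTsum : κ ^ 4 - 2 * ω ≤ ∑ p ∈ P, ∑ q ∈ P, w p * w q * T p q := by
    have h5 : ∑ p ∈ P, ∑ q ∈ P, w p * w q * ∑ p' ∈ P, ∑ q' ∈ P, w p' * w q' * ee p q p' q' ≤ ∑ p ∈ P, ∑ q ∈ P, (w p * w q * T p q + w p * w q * (2 * ω)) := by
      refine sum_le_sum fun p hp => sum_le_sum fun q hq => ?_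
      rw [← mul_add]
      refine mul_le_mul_of_nonneg_left ?_ (mul_nonneg (hw p hp) (hw q hq))
      have := hsplit p hp q hq
      have a1 := hω p hp
      have a2 := hω q hq
      linarith
    simp only [sum_add_distrib] at h5
    have h6 : ∑ p ∈ P, ∑ q ∈ P, w p * w q * (2 * ω) = 2 * ω := by
      have : ∀ p ∈ P, ∑ q ∈ P, w p * w q * (2 * ω) = w p * (2 * ω) := by
        intro p _
        rw [← sum_mul, ← mul_sum, hw1, mul_one]
      rw [sum_congr rfl this, ← sum_mul, hw1, one_mul]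
    rw [h6] at h5
    have h7 : κ ^ 4 ≤ ∑ p ∈ P, ∑ q ∈ P, w p * w q * ∑ p' ∈ P, ∑ q' ∈ P, w p' * w q' * ee p q p' q' := h4
    linarith
  have hne : P.Nonempty := by
    rw [nonempty_iff_ne_empty]
    rintro rfl
    simp at hw1
  obtain ⟨⟨p, q⟩, hpq, hmax⟩ := exists_max_image (P ×ˢ P) (fun x => T x.1 x.2) (hne.product hne)
  rw [mem_product] at hpq
  obtain ⟨hp, hq⟩ := hpq
  dsimp only at hp hq
  have hTpq : κ ^ 4 - 2 * ω ≤ T p q := by
    refine hTsum.trans ?_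
    have h5 : ∑ p ∈ P, ∑ q ∈ P, w p * w q * T p q ≤ ∑ p₁ ∈ P, ∑ q₁ ∈ P, w p₁ * w q₁ * T p q := by
      refine sum_le_sum fun p₁ hp₁ => sum_le_sum fun q₁ hq₁ => ?_
      exact mul_le_mul_of_nonneg_left (hmax (p₁, q₁) (mem_product.mpr ⟨hp₁, hq₁⟩)) (mul_nonneg (hw _ hp₁) (hw _ hq₁))
    refine h5.trans (le_of_eq ?_)
    have : ∀ p₁ ∈ P, ∑ q₁ ∈ P, w p₁ * w q₁ * T p q = w p₁ * T p q := by
      intro p₁ _
      rw [← sum_mul, ← mul_sum, hw1, mul_one]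
    rw [sum_congr rfl this, ← sum_mul, hw1, one_mul]
  have hTpos : 0 < T p q := lt_of_lt_of_le h0 hTpq
  have hedge : E p q := by
    by_contra hn
    have h5 : T p q = 0 := by
      rw [hT]
      refine sum_eq_zero fun p' _ => sum_eq_zero fun q' _ => ?_
      have h6 : e p q = 0 := by rw [he]; dsimp only; rw [if_neg hn]
      have h7 : ee p q p' q' = 0 := by rw [hee]; dsimp only; rw [h6]; ring
      rw [h7]
      simp
    linarith
  -- the numbers attached to the edges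
  have hcop : ∀ p ∈ P, ∀ q ∈ P, p ≠ q → Nat.Coprime (p ^ t) (q ^ t) := fun p hp q hq hne =>
    Nat.Coprime.pow _ _ ((Nat.coprime_primes (hP p hp) (hP q hq)).mpr hne)
  have hG : ∀ p ∈ P, ∀ q ∈ P, E p q → ∃ γ : ℝ, ∃ z w : ℤ, ((q ^ t : ℕ) : ℝ) * γ - B q = z ∧ |((p ^ t : ℕ) : ℝ) * γ - B' p - w| ≤ τ := by
    intro p hp q hq hpq
    refine edge_gamma (p ^ t) (q ^ t) (Nat.pos_of_ne_zero (pow_ne_zero _ (hP q hq).ne_zero)) (hcop p hp q hq hpq.1) _ _ τ hτ ?_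
    push_cast
    exact hpq.2
  obtain ⟨γ, z, v, hz, hv⟩ := hG p hp q hq hedge
  refine ⟨γ, hTpq.trans ?_⟩
  have hX1 : (2 : ℝ) ≤ X := by exact_mod_cast (hP p hp).two_le.trans (hX p hp)
  have key : ∀ p' ∈ P, ∀ q' ∈ P, (if p ≠ p' ∧ q ≠ q' then ee p q p' q' else 0) ≤ (if dZ ((q' : ℝ) ^ t * γ - B q') ≤ (X : ℝ) ^ t * τ then (1 : ℝ) else 0) := by
    intro p' hp' q' hq'
    by_cases hc : dZ ((q' : ℝ) ^ t * γ - B q') ≤ (X : ℝ) ^ t * τ
    · rw [if_pos hc]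
      split_ifs
      · exact hee1 _ _ _ _
      · norm_num
    rw [if_neg hc]
    by_cases hd : p ≠ p' ∧ q ≠ q'
    swap
    · rw [if_neg hd]
    rw [if_pos hd]
    by_contra hcon
    apply hc
    push Not at hcon
    have hE2 : e p' q ≠ 0 := fun h => by
      rw [hee] at hcon; dsimp only at hcon; rw [h] at hcon; simp at hcon
    have hE3 : e p' q' ≠ 0 := fun h => by
      rw [hee] at hcon; dsimp only at hcon; rw [h] at hcon; simp at hcon
    have hE4 : e p q' ≠ 0 := fun h => by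
      rw [hee] at hcon; dsimp only at hcon; rw [h] at hcon; simp at hcon
    replace hE2 := hE1 _ _ hE2
    replace hE3 := hE1 _ _ hE3
    replace hE4 := hE1 _ _ hE4
    obtain ⟨γ2, z2, v2, hz2, hv2⟩ := hG p' hp' q hq hE2
    obtain ⟨γ3, z3, v3, hz3, hv3⟩ := hG p' hp' q' hq' hE3
    obtain ⟨γ4, z4, v4, hz4, hv4⟩ := hG p hp q' hq' hE4
    have hcop4 : Nat.Coprime (p ^ t) (q ^ t * p' ^ t * q' ^ t) :=
      Nat.Coprime.mul_right (Nat.Coprime.mul_right (hcop p hp q hq hedge.1) (hcop p hp p' hp' hd.1)) (hcop p hp q' hq' hE4.1)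
    have h41 : |((p ^ t : ℕ) : ℝ) * (γ4 - γ) - (v4 - v : ℤ)| ≤ 2 * τ := by
      have : ((p ^ t : ℕ) : ℝ) * (γ4 - γ) - (v4 - v : ℤ) = (((p ^ t : ℕ) : ℝ) * γ4 - B' p - v4) - (((p ^ t : ℕ) : ℝ) * γ - B' p - v) := by
        push_cast
        ring
      rw [this]
      refine (abs_sub _ _).trans ?_
      linarith
    have h23 : |((p' ^ t : ℕ) : ℝ) * (γ2 - γ3) - (v2 - v3 : ℤ)| ≤ 2 * τ := by
      have : ((p' ^ t : ℕ) : ℝ) * (γ2 - γ3) - (v2 - v3 : ℤ) = (((p' ^ t : ℕ) : ℝ) * γ2 - B' p' - v2) - (((p' ^ t : ℕ) : ℝ) * γ3 - B' p' - v3) := by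
        push_cast
        ring
      rw [this]
      refine (abs_sub _ _).trans ?_
      linarith
    have h12 : ((q ^ t : ℕ) : ℝ) * (γ - γ2) = (z - z2 : ℤ) := by
      push_cast
      push_cast at hz hz2
      linarith
    have h34 : ((q' ^ t : ℕ) : ℝ) * (γ3 - γ4) = (z3 - z4 : ℤ) := by
      push_cast
      push_cast at hz3 hz4
      linarith
    have hle : ∀ p ∈ P, ((p ^ t : ℕ) : ℝ) ≤ (X : ℝ) ^ t := fun p hp => by
      have := Nat.pow_le_pow_left (hX p hp) t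
      exact_mod_cast this
    have hXt : (2 : ℝ) ≤ (X : ℝ) ^ t := by
      calc (2 : ℝ) ≤ X := hX1
        _ = (X : ℝ) ^ 1 := (pow_one _).symm
        _ ≤ (X : ℝ) ^ t := pow_le_pow_right₀ (by linarith) ht
    have hbound : ∀ a ∈ P, ∀ b ∈ P, ∀ c ∈ P, 2 * τ * (((a ^ t : ℕ) : ℝ) * ((b ^ t : ℕ) : ℝ) * ((c ^ t : ℕ) : ℝ)) ≤ τ * (X : ℝ) ^ (4 * t) := by
      intro a ha b hb c hc
      have h5 : ((a ^ t : ℕ) : ℝ) * ((b ^ t : ℕ) : ℝ) * ((c ^ t : ℕ) : ℝ) ≤ (X : ℝ) ^ t * (X : ℝ) ^ t * (X : ℝ) ^ t := by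
        have := hle a ha
        have := hle b hb
        have := hle c hc
        gcongr
      have h6 : (X : ℝ) ^ (4 * t) = (X : ℝ) ^ t * (X : ℝ) ^ t * (X : ℝ) ^ t * (X : ℝ) ^ t := by
        rw [← pow_add, ← pow_add, ← pow_add]
        congr 1
        ring
      rw [h6]
      have h7 : 0 ≤ (X : ℝ) ^ t * (X : ℝ) ^ t * (X : ℝ) ^ t := by positivity
      calc 2 * τ * (((a ^ t : ℕ) : ℝ) * ((b ^ t : ℕ) : ℝ) * ((c ^ t : ℕ) : ℝ)) ≤ 2 * τ * ((X : ℝ) ^ t * (X : ℝ) ^ t * (X : ℝ) ^ t) := by gcongr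
        _ = τ * ((X : ℝ) ^ t * (X : ℝ) ^ t * (X : ℝ) ^ t * 2) := by ring
        _ ≤ τ * ((X : ℝ) ^ t * (X : ℝ) ^ t * (X : ℝ) ^ t * (X : ℝ) ^ t) := by gcongr
    have hdvd := cycle_dvd (p ^ t) (p' ^ t) (q ^ t) (q' ^ t) hcop4 γ γ2 γ3 γ4 τ _ _ _ _ h12 h23 h34 h41 (by
      have h5 := hbound q hq q' hq' p hp
      have h6 := hbound q hq p' hp' q' hq'
      have h7 : 2 * τ * (X : ℝ) ^ (4 * t) = τ * (X : ℝ) ^ (4 * t) + τ * (X : ℝ) ^ (4 * t) := by ring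
      linarith)
    obtain ⟨m, hm⟩ := hdvd
    rw [hm] at h41
    have hp0 : (0 : ℝ) < ((p ^ t : ℕ) : ℝ) := by
      have := (hP p hp).pos
      positivity
    have hp2 : (2 : ℝ) ≤ ((p ^ t : ℕ) : ℝ) := by
      have h5 : 2 ≤ p ^ t := (hP p hp).two_le.trans (Nat.le_self_pow (by omega) p)
      exact_mod_cast h5
    have h8 : |γ4 - γ - m| ≤ τ := by
      have h9 : ((p ^ t : ℕ) : ℝ) * (γ4 - γ) - (((p ^ t : ℕ) : ℤ) * m : ℤ) = ((p ^ t : ℕ) : ℝ) * (γ4 - γ - m) := by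
        push_cast
        ring
      rw [h9, abs_mul, abs_of_pos hp0] at h41
      have h10 : 2 * |γ4 - γ - m| ≤ ((p ^ t : ℕ) : ℝ) * |γ4 - γ - m| := mul_le_mul_of_nonneg_right hp2 (abs_nonneg _)
      linarith
    have h9 : (q' : ℝ) ^ t * γ - B q' - ((z4 - q' ^ t * m : ℤ) : ℝ) = -((q' : ℝ) ^ t * (γ4 - γ - m)) := by
      push_cast at hz4 ⊢
      linarith
    refine (dZ_le_sub_int _ (z4 - q' ^ t * m)).trans ?_
    rw [h9, abs_neg, abs_mul, abs_of_nonneg (by positivity)]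
    refine mul_le_mul ?_ h8 (abs_nonneg _) (by positivity)
    have := hle q' hq'
    push_cast at this
    exact this
  calc T p q ≤ ∑ p' ∈ P, ∑ q' ∈ P, w p' * w q' * (if dZ ((q' : ℝ) ^ t * γ - B q') ≤ (X : ℝ) ^ t * τ then (1 : ℝ) else 0) := by
        rw [hT]
        exact sum_le_sum fun p' hp' => sum_le_sum fun q' hq' => mul_le_mul_of_nonneg_left (key p' hp' q' hq') (mul_nonneg (hw _ hp') (hw _ hq'))
    _ = ∑ q' ∈ P, (if dZ ((q' : ℝ) ^ t * γ - B q') ≤ (X : ℝ) ^ t * τ then w q' else 0) := by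
        rw [sum_comm]
        refine sum_congr rfl fun q' _ => ?_
        split_ifs
        · simp only [mul_one]
          rw [← sum_mul, hw1, one_mul]
        · simp

end Pool.Agent.Lib.MP_3e612f_nt.NF
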