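import Pool.Agent.Lib.MP_3e612f_nt.NF.Pig

/-! Closed periodic sets without rational numbers; weighted pigeonhole (paper, Part K). -/

set_option autoImplicit false

namespace Pool.Agent.Lib.MP_3e612f_nt.NF

open Finset
open Pool.Agent.Lib.MP_3e612f_nt.MR (mu ex)

theorem dZ_lip (x y : ℝ) : |dZ x - dZ y| ≤ |x - y| := by
  rw [abs_le]
  constructor
  · have h := dZ_add_le (y - x) x
    rw [sub_add_cancel] at h
    have h1 := dZ_le_abs (y - x)
    rw [abs_sub_comm] at h1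
    linarith
  · have h := dZ_add_le (x - y) y
    rw [sub_add_cancel] at h
    have h1 := dZ_le_abs (x - y)
    linarith

theorem continuous_dZ : Continuous dZ := by
  rw [Metric.continuous_iff]
  intro x ε hε
  refine ⟨ε, hε, fun y hy => ?_⟩
  rw [Real.dist_eq] at hy ⊢
  exact (dZ_lip y x).trans_lt hy

/-- multiples of the points of a closed periodic set without rational numbers stay away from the integers -/
theorem far_int (C : Set ℝ) (hC : IsClosed C) (hper : ∀ x ∈ C, ∀ z : ℤ, x + z ∈ C) (hrat : ∀ q : ℚ, (q : ℝ) ∉ C) (M : ℕ) (hM : 1 ≤ M) :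
    ∃ c : ℝ, 0 < c ∧ ∀ x ∈ C, c ≤ dZ (M * x) := by
  have hcomp : IsCompact (C ∩ Set.Icc 0 1) := (isCompact_Icc (a := (0:ℝ)) (b := 1)).inter_left hC
  have hred : ∀ x ∈ C, ∃ y ∈ C ∩ Set.Icc 0 1, dZ (M * y) = dZ (M * x) := by
    intro x hx
    have h1 := hper x hx (-⌊x⌋)
    refine ⟨x + ((-⌊x⌋ : ℤ) : ℝ), ⟨h1, ?_, ?_⟩, ?_⟩
    · push_cast
      have := Int.floor_le x
      linarith
    · push_cast
      have := Int.lt_floor_add_one x
      linarith
    · have h2 : (M : ℝ) * (x + ((-⌊x⌋ : ℤ) : ℝ)) = M * x + ((M * (-⌊x⌋) : ℤ) : ℝ) := by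
        push_cast
        ring
      rw [h2, dZ_add_int]
  rcases (C ∩ Set.Icc 0 1).eq_empty_or_nonempty with h | h
  · refine ⟨1, one_pos, fun x hx => ?_⟩
    obtain ⟨y, hy, -⟩ := hred x hx
    rw [h] at hy
    exact absurd hy (Set.notMem_empty _)
  · obtain ⟨y, hy, hmin⟩ := hcomp.exists_isMinOn h (f := fun x => dZ (M * x)) ((continuous_dZ.comp (continuous_const.mul continuous_id)).continuousOn)
    refine ⟨dZ (M * y), ?_, fun x hx => ?_⟩
    · refine lt_of_le_of_ne (dZ_nonneg _) ?_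
      intro h0
      obtain ⟨z, hz⟩ := (dZ_eq_zero_iff _).mp h0.symm
      have hM0 : (M : ℝ) ≠ 0 := by
        have : M ≠ 0 := by omega
        exact_mod_cast this
      apply hrat ((z : ℚ) / (M : ℚ))
      have : (((z : ℚ) / (M : ℚ) : ℚ) : ℝ) = y := by
        push_cast
        rw [← hz]
        field_simp
      rw [this]
      exact hy.1
    · obtain ⟨y', hy', he⟩ := hred x hx
      rw [← he]
      exact hmin hy'

/-- uniformly in finitely many multipliers -/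
theorem far_finset (C : Set ℝ) (hC : IsClosed C) (hper : ∀ x ∈ C, ∀ z : ℤ, x + z ∈ C) (hrat : ∀ q : ℚ, (q : ℝ) ∉ C) (t : ℕ) (P : Finset ℕ)
    (hP : ∀ p ∈ P, 1 ≤ p) : ∃ c : ℝ, 0 < c ∧ ∀ p ∈ P, ∀ x ∈ C, c ≤ dZ ((p : ℝ) ^ t * x) := by
  classical
  induction P using Finset.induction_on with
  | empty => exact ⟨1, one_pos, fun p hp => absurd hp (notMem_empty p)⟩
  | insert a s ha ih =>
    obtain ⟨c, hc, h1⟩ := ih fun p hp => hP p (mem_insert_of_mem hp)
    obtain ⟨c', hc', h2⟩ := far_int C hC hper hrat (a ^ t) (Nat.pos_of_ne_zero (pow_ne_zero _ (by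
      have := hP a (mem_insert_self _ _)
      omega)))
    refine ⟨min c c', lt_min hc hc', fun p hp x hx => ?_⟩
    rcases mem_insert.mp hp with rfl | hp
    · have := h2 x hx
      push_cast at this
      exact (min_le_right _ _).trans this
    · exact (min_le_left _ _).trans (h1 p hp x hx)

/-- the union of finitely many small closed sets -/
theorem union_small {α : Type} (U : Finset α) (F : α → Set ℝ) (η : ℝ) (hcl : ∀ m ∈ U, IsClosed (F m)) (hper : ∀ m ∈ U, ∀ x ∈ F m, ∀ z : ℤ, x + z ∈ F m)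
    (hs : ∀ m ∈ U, Small η (F m)) :
    IsClosed (⋃ m ∈ U, F m) ∧ (∀ x ∈ ⋃ m ∈ U, F m, ∀ z : ℤ, x + z ∈ ⋃ m ∈ U, F m) ∧ (∀ q : ℚ, (q : ℝ) ∉ ⋃ m ∈ U, F m) ∧
      MeasureTheory.volume ((⋃ m ∈ U, F m) ∩ Set.Ico 0 1) ≤ ENNReal.ofReal (#U * η) := by
  refine ⟨?_, ?_, ?_, ?_⟩
  · exact U.finite_toSet.isClosed_biUnion hcl
  · intro x hx z
    simp only [Set.mem_iUnion] at hx ⊢
    obtain ⟨m, hm, hx⟩ := hx
    exact ⟨m, hm, hper m hm x hx z⟩
  · intro q hq
    simp only [Set.mem_iUnion] at hq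
    obtain ⟨m, hm, hq⟩ := hq
    exact (hs m hm).2 q hq
  · rw [Set.iUnion₂_inter]
    refine (MeasureTheory.measure_biUnion_finset_le U _).trans ?_
    refine (Finset.sum_le_sum fun m hm => (hs m hm).1).trans ?_
    rw [Finset.sum_const, nsmul_eq_mul, ENNReal.ofReal_mul (by positivity), ENNReal.ofReal_natCast]

open scoped Classical in
/-- weighted pigeonhole -/
theorem kpig {α : Type} (P : Finset ℕ) (w : ℕ → ℝ) (hw : ∀ p ∈ P, 0 ≤ w p) (U : Finset α) (hU : U.Nonempty) (R : ℕ → ℕ → α → Prop) (κ : ℝ)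
    (h : κ ≤ ∑ p ∈ P, ∑ q ∈ P, w p * w q * (if ∃ u ∈ U, R p q u then 1 else 0)) :
    ∃ u ∈ U, κ / #U ≤ ∑ p ∈ P, ∑ q ∈ P, w p * w q * (if R p q u then 1 else 0) := by
  by_contra hcon
  push Not at hcon
  have hUc : (0 : ℝ) < #U := by exact_mod_cast hU.card_pos
  have h1 := Finset.sum_lt_sum_of_nonempty hU hcon
  rw [Finset.sum_const, nsmul_eq_mul, mul_div_cancel₀ _ hUc.ne'] at h1
  have h5 : ∑ u ∈ U, ∑ p ∈ P, ∑ q ∈ P, w p * w q * (if R p q u then (1 : ℝ) else 0) = ∑ p ∈ P, ∑ q ∈ P, ∑ u ∈ U, w p * w q * (if R p q u then (1 : ℝ) else 0) := by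
    rw [sum_comm]
    exact sum_congr rfl fun p _ => sum_comm
  have h2 : ∑ p ∈ P, ∑ q ∈ P, w p * w q * (if ∃ u ∈ U, R p q u then (1 : ℝ) else 0) ≤ ∑ u ∈ U, ∑ p ∈ P, ∑ q ∈ P, w p * w q * (if R p q u then (1 : ℝ) else 0) := by
    rw [h5]
    refine sum_le_sum fun p hp => sum_le_sum fun q hq => ?_
    rw [← mul_sum]
    refine mul_le_mul_of_nonneg_left ?_ (mul_nonneg (hw p hp) (hw q hq))
    split_ifs with hex
    · obtain ⟨u, hu, hR⟩ := hex
      have := single_le_sum (f := fun u => if R p q u then (1 : ℝ) else 0) (s := U) (fun u _ => by split_ifs <;> norm_num) hu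
      rwa [if_pos hR] at this
    · exact sum_nonneg fun u _ => by split_ifs <;> norm_num
  linarith

end Pool.Agent.Lib.MP_3e612f_nt.NF
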