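import Pool.Agent.Lib.MP_3e612f_nt.NF.K.OneN
import Pool.Agent.Lib.MP_3e612f_nt.NF.K.Sel
import Pool.Agent.Lib.MP_3e612f_nt.NF.K.Cyc

/-! The end of the argument (paper, Part K). -/

set_option autoImplicit false

namespace Pool.Agent.Lib.MP_3e612f_nt.NF

open Finset
open Pool.Agent.Lib.MP_3e612f_nt.MR (mu ex)

open scoped Classical in
/-- The end of the argument: many related pairs contradict the sieve bound. -/
theorem contradiction_of_pairs (t : ℕ) (ht : 1 ≤ t) (P : Finset ℕ) (hP : ∀ p ∈ P, p.Prime) (X : ℕ) (hX : ∀ p ∈ P, p ≤ X) (Q : ℕ → ℝ → Prop)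
    (κ τ δ : ℝ) (hκ : 0 < κ) (hτ : 0 ≤ τ) (hτX : 2 * τ * (X : ℝ) ^ (4 * t) < 1)
    (hL : 1 ≤ δ * ∑ p ∈ P, 1 / (p : ℝ)) (hδ : δ ≤ κ ^ 4 / 8)
    (hsieve : ∀ γ : ℝ, ∑ p ∈ P, (if Q p γ then 1 / (p : ℝ) else 0) ≤ κ ^ 4 / 4 * ∑ p ∈ P, 1 / (p : ℝ))
    (B B' : ℕ → ℝ) (hB : ∀ q ∈ P, ∀ γ : ℝ, dZ ((q : ℝ) ^ t * γ - B q) ≤ (X : ℝ) ^ t * τ → Q q γ)
    (h : κ ≤ ∑ p ∈ P, ∑ q ∈ P, wt P p * wt P q * (if p ≠ q ∧ dZ ((p : ℝ) ^ t * B q - (q : ℝ) ^ t * B' p) ≤ τ then 1 else 0)) : False := by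
  set L : ℝ := ∑ p ∈ P, 1 / (p : ℝ) with hLdef
  have hL0 : 0 ≤ L := sum_nonneg fun _ _ => by positivity
  have hLpos : 0 < L := by
    rcases hL0.eq_or_lt with h0 | h0
    · rw [← h0, mul_zero] at hL
      linarith
    · exact h0
  have hδ0 : 0 < δ := by
    by_contra hn
    push Not at hn
    have : δ * L ≤ 0 := mul_nonpos_of_nonpos_of_nonneg hn hL0
    linarith
  have hω : ∀ p ∈ P, wt P p ≤ δ / 2 := by
    intro p hp
    refine (wt_le P hP p hp).trans ?_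
    rw [← hLdef, div_le_div_iff₀ (by positivity) (by norm_num)]
    linarith
  obtain ⟨γ, hγ⟩ := cyc t ht P hP X hX (wt P) (fun p _ => wt_nonneg P p) (sum_wt P hLpos) (δ / 2) hω B B' κ τ hκ.le hτ hτX (by
    refine h.trans (le_of_eq ?_)
    refine sum_congr rfl fun p _ => sum_congr rfl fun q _ => ?_
    exact congrArg (fun y : ℝ => wt P p * wt P q * y) (if_congr Iff.rfl rfl rfl))
  have h1 : ∑ q ∈ P, (if dZ ((q : ℝ) ^ t * γ - B q) ≤ (X : ℝ) ^ t * τ then wt P q else 0) ≤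
      (∑ q ∈ P, (if Q q γ then 1 / (q : ℝ) else 0)) / L := by
    rw [sum_div]
    refine sum_le_sum fun q hq => ?_
    have hq0 : (0 : ℝ) < q := by exact_mod_cast (hP q hq).pos
    by_cases h2 : dZ ((q : ℝ) ^ t * γ - B q) ≤ (X : ℝ) ^ t * τ
    · rw [if_pos h2, if_pos (hB q hq γ h2)]
      unfold wt
      rw [← hLdef, div_div]
    · rw [if_neg h2]
      split_ifs <;> positivity
  have h2 := hsieve γ
  have h3 : (∑ q ∈ P, (if Q q γ then 1 / (q : ℝ) else 0)) / L ≤ κ ^ 4 / 4 := by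
    rw [div_le_iff₀ hLpos]
    exact h2
  have h4 : 0 < κ ^ 4 := by positivity
  linarith

end Pool.Agent.Lib.MP_3e612f_nt.NF
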