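import Pool.Agent.Lib.MP_3e612f_nt.NF.U.Main
import Pool.Agent.Lib.MP_3e612f_nt.NF.K.Contra

/-! Katai's method with windows (paper, Part K: K-Main). -/

set_option autoImplicit false

namespace Pool.Agent.Lib.MP_3e612f_nt.NF

open Finset
open Pool.Agent.Lib.MP_3e612f_nt.MR (mu ex)

/-- The hypothesis (pair) of K-Main. -/
def PairHyp (t : ℕ) {ι Om : Type} [Fintype ι] (f : Om → ℕ → ℂ) (fr : Om → ι → ℝ) : Prop :=
  ∀ κ : ℝ, 0 < κ → ∃ B : ℕ, ∀ (p q J : ℕ), 1 ≤ p → 1 ≤ q → 1 ≤ J → ∀ (o o' : Om) (s s' : ℕ),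
    κ * J ≤ ‖∑ j ∈ range J, f o (s + p * j) * (starRingEnd ℂ) (f o' (s' + q * j))‖ →
    ∃ m m' : ι → ℤ, (m ≠ 0 ∨ m' ≠ 0) ∧ (∀ i, |m i| ≤ B) ∧ (∀ i, |m' i| ≤ B) ∧
      dZ ((p : ℝ) ^ t * dot m (fr o) + (q : ℝ) ^ t * dot m' (fr o')) ≤ B / J

theorem dot_zero_left {ι : Type} [Fintype ι] (x : ι → ℝ) : dot 0 x = 0 := by
  unfold dot
  simp

/-- K-Main. -/
theorem windows (t : ℕ) (ht : 1 ≤ t) {ι Om : Type} [Fintype ι] (f : Om → ℕ → ℂ) (hf : ∀ o n, ‖f o n‖ ≤ 1) (fr : Om → ι → ℝ) (hp : PairHyp t f fr)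
    (ε : ℝ) (hε : 0 < ε) : ∃ η : ℝ, 0 < η ∧ ∃ B : ℕ, ∀ S : Set Om,
      (∀ m : ι → ℤ, m ≠ 0 → (∀ i, |m i| ≤ B) → Small η (Fr {x | ∃ o ∈ S, x = dot m (fr o)})) →
      ∃ H₀ : ℕ, ∀ H : ℕ, H₀ ≤ H → ∃ N₀ : ℕ, ∀ N : ℕ, N₀ ≤ N → ∀ o : ℕ → Om, (∀ n, o n ∈ S) →
        ∑ n ∈ Icc 1 N, 1 / (n : ℝ) * ‖∑ h ∈ Icc 1 H, (mu (n + h) : ℂ) * f (o n) h‖ ≤ ε * H * Real.log N := by
  classical
  -- constants
  set e : ℝ := min (ε / 2) 1 with he
  have he0 : 0 < e := lt_min (by positivity) one_pos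
  have he1 : e ≤ 1 := min_le_right _ _
  have heε : 2 * e ≤ ε := by
    have := min_le_left (ε / 2) 1
    linarith
  obtain ⟨B, hB⟩ := hp (e ^ 2 / 64) (by positivity)
  obtain ⟨U, hUne, -, hU⟩ := box_finset ι B
  set u : ℝ := (#U : ℝ) with hu
  have hu1 : 1 ≤ u := by
    rw [hu]
    exact_mod_cast hUne.card_pos
  set κ₂ : ℝ := e ^ 2 / 32 / (#(U ×ˢ U) : ℝ) with hκ₂
  have hUU : (0 : ℝ) < (#(U ×ˢ U) : ℝ) := by
    rw [card_product]
    have := hUne.card_pos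
    positivity
  have hκ₂0 : 0 < κ₂ := by positivity
  obtain ⟨Ct, hCt1, hsv⟩ := sieve_bound t ht
  set η : ℝ := κ₂ ^ 4 / (8 * Ct * u) with hη
  have hη0 : 0 < η := by positivity
  refine ⟨η, hη0, B, fun S hS => ?_⟩
  -- the closed set
  set U' : Finset (ι → ℤ) := U.filter (fun m => m ≠ 0) with hU'
  have hU'S : ∀ m ∈ U', Small η (Fr {x | ∃ o ∈ S, x = dot m (fr o)}) := by
    intro m hm
    rw [hU', mem_filter] at hm
    exact hS m hm.2 ((hU m).mp hm.1)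
  obtain ⟨hCcl, hCper, hCrat, hCvol⟩ := union_small U' (fun m => Fr {x | ∃ o ∈ S, x = dot m (fr o)}) η (fun m _ => Fr_closed _) (fun m _ x hx z => Fr_add_int _ hx z) hU'S
  set C : Set ℝ := ⋃ m ∈ U', Fr {x | ∃ o ∈ S, x = dot m (fr o)} with hC
  have hmemC : ∀ m ∈ U', ∀ o ∈ S, dot m (fr o) ∈ C := by
    intro m hm o ho
    rw [hC]
    simp only [Set.mem_iUnion]
    exact ⟨m, hm, mem_Fr ⟨o, ho, rfl⟩⟩
  set δ : ℝ := min (κ₂ ^ 4 / 8) (e ^ 2 / 400) with hδ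
  have hδ0 : 0 < δ := lt_min (by positivity) (by positivity)
  obtain ⟨P, hPY, hPL, ρ, hρ, hsieve⟩ := hsv C hCcl hCper hCrat (#U' * η) δ (by positivity) hδ0 hCvol 1
  have hP : ∀ p ∈ P, p.Prime := fun p hp => (hPY p hp).1
  set L : ℝ := ∑ p ∈ P, 1 / (p : ℝ) with hL
  have hδL : 1 ≤ δ * L := by
    rw [div_le_iff₀ hδ0] at hPL
    linarith
  have hLpos : 0 < L := lt_of_lt_of_le (by positivity) hPL
  have hL400 : 400 / e ^ 2 ≤ L := by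
    refine le_trans ?_ hPL
    rw [div_le_div_iff₀ (by positivity) hδ0]
    have := min_le_right (κ₂ ^ 4 / 8) (e ^ 2 / 400)
    rw [← hδ] at this
    linarith
  have hsieve' : ∀ γ : ℝ, ∑ p ∈ P, (if ∃ x ∈ C, |(p : ℝ) ^ t * γ - x| ≤ ρ then 1 / (p : ℝ) else 0) ≤ κ₂ ^ 4 / 4 * L := by
    intro γ
    refine le_trans (le_of_eq ?_) ((hsieve γ).trans ?_)
    · exact sum_congr rfl fun p _ => if_congr Iff.rfl rfl rfl
    · refine mul_le_mul_of_nonneg_right ?_ hLpos.le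
      have h1 : (#U' : ℝ) ≤ u := by
        rw [hu]
        exact_mod_cast card_filter_le _ _
      have h2 : Ct * (#U' * η) ≤ κ₂ ^ 4 / 8 := by
        calc Ct * (#U' * η) ≤ Ct * (u * η) := by gcongr
          _ = κ₂ ^ 4 / 8 := by
            rw [hη]
            field_simp
      have h3 := min_le_left (κ₂ ^ 4 / 8) (e ^ 2 / 400)
      rw [← hδ] at h3
      linarith
  obtain ⟨c, hc0, hc⟩ := far_finset C hCcl hCper hCrat t P (fun p hp => (hP p hp).one_le)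
  obtain ⟨X, hX⟩ : ∃ X : ℕ, ∀ p ∈ P, p ≤ X := ⟨P.sup id, fun p hp => le_sup (f := id) hp⟩
  obtain ⟨p₀, hp₀⟩ : P.Nonempty := by
    rw [nonempty_iff_ne_empty]
    intro h
    rw [hL, h, sum_empty] at hLpos
    exact lt_irrefl _ hLpos
  have hX1 : 1 ≤ X := (hP p₀ hp₀).one_le.trans (hX p₀ hp₀)
  have hX0 : (0 : ℝ) < X := by exact_mod_cast hX1
  -- the length of the windows
  set D : ℝ := 2 * B / c + X ^ t * B / ρ + 3 * B * X ^ (4 * t) + 1 with hD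
  have hD1 : 1 ≤ D := by
    have : 0 ≤ 2 * B / c + X ^ t * B / ρ + 3 * B * X ^ (4 * t) := by positivity
    linarith
  refine ⟨⌈512 * X * (D + 1) / e ^ 2⌉₊ + 1, fun H hH => ?_⟩
  have hH1 : 1 ≤ H := by omega
  have hH2 : 512 * X * (D + 1) / e ^ 2 ≤ H := by
    refine (Nat.le_ceil _).trans ?_
    have : ⌈512 * X * (D + 1) / e ^ 2⌉₊ ≤ H := by omega
    exact_mod_cast this
  set J : ℕ := ⌊e ^ 2 * H / (512 * X)⌋₊ with hJ
  have hJ1 : (J : ℝ) ≤ e ^ 2 * H / (512 * X) := Nat.floor_le (by positivity)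
  have hJ2 : e ^ 2 * H / (512 * X) < J + 1 := Nat.lt_floor_add_one _
  have hJD : D ≤ J := by
    have h1 : D + 1 ≤ e ^ 2 * H / (512 * X) := by
      rw [le_div_iff₀ (by positivity)]
      rw [div_le_iff₀ (by positivity)] at hH2
      linarith
    linarith
  have hJpos : (0 : ℝ) < J := by linarith
  have hJ1' : 1 ≤ J := by exact_mod_cast hJpos
  have hJH : 512 * ((X : ℝ) * J) ≤ e ^ 2 * H := by
    rw [le_div_iff₀ (by positivity)] at hJ1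
    linarith
  set τ : ℝ := B / J with hτ
  have hτ0 : 0 ≤ τ := by positivity
  have hτc : τ < c := by
    rw [hτ, div_lt_iff₀ hJpos]
    have h1 : 2 * B / c ≤ J := by
      have : 0 ≤ X ^ t * B / ρ + 3 * B * X ^ (4 * t) := by positivity
      linarith
    rw [div_le_iff₀ hc0] at h1
    have h2 : 0 < c * J := by positivity
    linarith
  have hτρ : (X : ℝ) ^ t * τ ≤ ρ := by
    have h1 : X ^ t * B / ρ ≤ J := by
      have : 0 ≤ 2 * B / c + 3 * B * X ^ (4 * t) := by positivity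
      linarith
    rw [hτ, mul_div_assoc', div_le_iff₀ hJpos]
    rw [div_le_iff₀ hρ] at h1
    linarith
  have hτX : 2 * τ * (X : ℝ) ^ (4 * t) < 1 := by
    have h1 : 3 * B * X ^ (4 * t) + 1 ≤ (J : ℝ) := by
      have : 0 ≤ 2 * B / c + X ^ t * B / ρ := by positivity
      linarith
    have h2 : 2 * τ * (X : ℝ) ^ (4 * t) = 2 * B * X ^ (4 * t) / J := by
      rw [hτ]
      ring
    rw [h2, div_lt_one hJpos]
    have : 0 ≤ (B : ℝ) * X ^ (4 * t) := by positivity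
    linarith
  -- the relation
  set R : ℕ → ℕ → Om → Om → Prop := fun p q v v' => ∃ m ∈ U ×ˢ U, (m.1 ≠ 0 ∨ m.2 ≠ 0) ∧ dZ ((p : ℝ) ^ t * dot m.1 (fr v) + (q : ℝ) ^ t * dot m.2 (fr v')) ≤ τ with hR
  obtain ⟨N₀, hN₀⟩ := one_n f hf e he0 he1 P hP hL400 X hX J H hJ1' hH1 hJH R S (by
    intro p hp q hq v _ v' _ s s' _ _ hbig
    obtain ⟨m, m', hne, hm, hm', hd⟩ := hB p q J (hP p hp).one_le (hP q hq).one_le hJ1' v v' s s' hbig
    exact ⟨(m, m'), mem_product.mpr ⟨(hU m).mpr hm, (hU m').mpr hm'⟩, hne, hd⟩)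
  refine ⟨N₀ + 1, fun N hN o ho => ?_⟩
  by_contra hcon
  push Not at hcon
  have hlog : 0 ≤ Real.log N := Real.log_natCast_nonneg N
  obtain ⟨i, hi⟩ := hN₀ N (by omega) o ho (by
    refine le_trans ?_ hcon.le
    refine mul_le_mul_of_nonneg_right (mul_le_mul_of_nonneg_right heε (by positivity)) hlog)
  -- pigeonhole
  obtain ⟨⟨m, m'⟩, hmU, hm⟩ := kpig P (wt P) (fun p _ => wt_nonneg P p) (U ×ˢ U) (hUne.product hUne)
    (fun p q m => p ≠ q ∧ (m.1 ≠ 0 ∨ m.2 ≠ 0) ∧ dZ ((p : ℝ) ^ t * dot m.1 (fr (o (i q))) + (q : ℝ) ^ t * dot m.2 (fr (o (i p)))) ≤ τ) (e ^ 2 / 32) (by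
      refine hi.trans (sum_le_sum fun p _ => sum_le_sum fun q _ => mul_le_mul_of_nonneg_left ?_ (mul_nonneg (wt_nonneg _ _) (wt_nonneg _ _)))
      by_cases h1 : p ≠ q ∧ R p q (o (i q)) (o (i p))
      · obtain ⟨hpq, m, hmU, hne, hd⟩ := h1
        rw [if_pos ⟨hpq, m, hmU, hne, hd⟩, if_pos ⟨m, hmU, hpq, hne, hd⟩]
      · rw [if_neg h1]
        split_ifs <;> norm_num)
  rw [← hκ₂] at hm
  rw [mem_product] at hmU
  obtain ⟨hmU1, hmU2⟩ := hmU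
  dsimp only at hm hmU1 hmU2
  -- both vectors are nonzero
  obtain ⟨p₁, hp₁, q₁, hq₁, hpq₁, hne₁, hd₁⟩ : ∃ p ∈ P, ∃ q ∈ P, p ≠ q ∧ (m ≠ 0 ∨ m' ≠ 0) ∧
      dZ ((p : ℝ) ^ t * dot m (fr (o (i q))) + (q : ℝ) ^ t * dot m' (fr (o (i p)))) ≤ τ := by
    by_contra hno
    push Not at hno
    have h2 : κ₂ ≤ 0 := by
      refine hm.trans (le_of_eq (sum_eq_zero fun p hp => sum_eq_zero fun q hq => ?_))
      rw [if_neg, mul_zero]
      rintro ⟨h2, h3, h4⟩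
      exact absurd h4 (not_le.mpr (hno p hp q hq h2 h3))
    linarith
  have hm0 : m ≠ 0 := by
    rintro rfl
    have hm'0 : m' ≠ 0 := by
      rcases hne₁ with h | h
      · exact absurd rfl h
      · exact h
    rw [dot_zero_left, mul_zero, zero_add] at hd₁
    have h1 := hc q₁ hq₁ _ (hmemC m' (mem_filter.mpr ⟨hmU2, hm'0⟩) _ (ho (i p₁)))
    linarith
  have hm'0 : m' ≠ 0 := by
    rintro rfl
    rw [dot_zero_left, mul_zero, add_zero] at hd₁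
    have h1 := hc p₁ hp₁ _ (hmemC m (mem_filter.mpr ⟨hmU1, hm0⟩) _ (ho (i q₁)))
    linarith
  refine contradiction_of_pairs t ht P hP X hX (fun p γ => ∃ x ∈ C, |(p : ℝ) ^ t * γ - x| ≤ ρ) κ₂ τ δ hκ₂0 hτ0 hτX hδL (min_le_left _ _) hsieve'
    (fun q => dot m (fr (o (i q)))) (fun p => -dot m' (fr (o (i p)))) (fun q _ γ h2 => ?_) ?_
  · obtain ⟨z, hz⟩ := exists_int ((q : ℝ) ^ t * γ - dot m (fr (o (i q))))
    refine ⟨dot m (fr (o (i q))) + z, hCper _ (hmemC m (mem_filter.mpr ⟨hmU1, hm0⟩) _ (ho (i q))) z, ?_⟩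
    rw [← sub_sub, hz]
    exact h2.trans hτρ
  refine hm.trans (sum_le_sum fun p _ => sum_le_sum fun q _ => mul_le_mul_of_nonneg_left ?_ (mul_nonneg (wt_nonneg _ _) (wt_nonneg _ _)))
  by_cases h1 : p ≠ q ∧ (m ≠ 0 ∨ m' ≠ 0) ∧ dZ ((p : ℝ) ^ t * dot m (fr (o (i q))) + (q : ℝ) ^ t * dot m' (fr (o (i p)))) ≤ τ
  · rw [if_pos h1]
    have h2 : p ≠ q ∧ dZ ((p : ℝ) ^ t * dot m (fr (o (i q))) - (q : ℝ) ^ t * -dot m' (fr (o (i p)))) ≤ τ := by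
      refine ⟨h1.1, ?_⟩
      rw [mul_neg, sub_neg_eq_add]
      exact h1.2.2
    rw [if_pos h2]
  · rw [if_neg h1]
    split_ifs <;> norm_num

end Pool.Agent.Lib.MP_3e612f_nt.NF
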