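import Pool.Agent.Lib.MP_3e612f_nt.NF.K.Slide

/-! The grid `r + H ℤ` and the bad points (paper, Part K: K-Bad). -/

set_option autoImplicit false

namespace Pool.Agent.Lib.MP_3e612f_nt.NF

open Finset
open Pool.Agent.Lib.MP_3e612f_nt.MR (mu ex)

/-- the last point of `r + H ℕ` before `m` -/
def st (r H m : ℕ) : ℕ := r + H * ((m - 1 - r) / H)

theorem st_mono (r H : ℕ) {m m' : ℕ} (h : m ≤ m') : st r H m ≤ st r H m' := by
  unfold st
  have : (m - 1 - r) / H ≤ (m' - 1 - r) / H := Nat.div_le_div_right (by omega)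
  exact Nat.add_le_add_left (Nat.mul_le_mul_left _ this) _

theorem st_lt (r H : ℕ) {m : ℕ} (h : r < m) : st r H m < m := by
  unfold st
  have := Nat.mul_div_le (m - 1 - r) H
  omega

theorem le_st (r H m : ℕ) : r ≤ st r H m := Nat.le_add_right _ _

theorem lt_st (r H : ℕ) (hH : 1 ≤ H) {m : ℕ} (h : r < m) : m ≤ st r H m + H := by
  unfold st
  have := Nat.lt_mul_div_succ (m - 1 - r) (show 0 < H by omega)
  rw [mul_add, mul_one] at this
  omega

/-- a bad point is close to a multiple of the grid -/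
theorem bad_point (r H p J k : ℕ) (hH : 1 ≤ H) (hp : 1 ≤ p) (hJ : 1 ≤ J) (hpJ : 2 * (p * J) ≤ H) (hk : r < p * k)
    (hbad : st r H (p * k) ≠ st r H (p * k + p * J)) :
    ∃ i j : ℕ, 1 ≤ i ∧ j < J ∧ k + j = (r + H * i) / p ∧ H * i < 2 * p * k := by
  set i : ℕ := (p * k + p * J - 1 - r) / H with hi
  have hpJ1 : 1 ≤ p * J := Nat.mul_pos hp hJ
  have h1 : (p * k - 1 - r) / H < i := by
    refine lt_of_le_of_ne (Nat.div_le_div_right (by omega)) ?_
    intro h
    apply hbad
    unfold st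
    rw [h]
  have h2 : p * k - 1 - r < H * i := by
    rw [Nat.div_lt_iff_lt_mul (by omega)] at h1
    have : i * H = H * i := mul_comm _ _
    omega
  have h3 : H * i ≤ p * k + p * J - 1 - r := Nat.mul_div_le _ _
  have hi1 : 1 ≤ i := Nat.lt_of_le_of_lt (Nat.zero_le _) h1
  have h4 : p * k ≤ r + H * i := by omega
  have h5 : r + H * i < p * k + p * J := by omega
  have h6 : k ≤ (r + H * i) / p := by
    rw [Nat.le_div_iff_mul_le (by omega), mul_comm]
    exact h4
  have h7 : (r + H * i) / p < k + J := by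
    rw [Nat.div_lt_iff_lt_mul (by omega)]
    calc r + H * i < p * k + p * J := h5
      _ = (k + J) * p := by ring
  refine ⟨i, (r + H * i) / p - k, hi1, by omega, by omega, ?_⟩
  have h8 : H ≤ H * i := Nat.le_mul_of_pos_right _ hi1
  have h9 : 2 * p * k = 2 * (p * k) := by ring
  rw [h9]
  omega

/-- K-Bad. -/
theorem bad_le (r H p J N : ℕ) (hH : 1 ≤ H) (hr : r ≤ H) (hp : 1 ≤ p) (hJ : 1 ≤ J) (hpJ : 2 * (p * J) ≤ H) :
    ∑ k ∈ Icc 1 N, 1 / (k : ℝ) * (if r < p * k ∧ st r H (p * k) = st r H (p * k + p * J) then 0 else 1) ≤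
      2 * p * J / H * (1 + Real.log N) + H := by
  have hH0 : (0 : ℝ) < H := by exact_mod_cast hH
  have h1 : ∀ k ∈ Icc 1 N, 1 / (k : ℝ) * (if r < p * k ∧ st r H (p * k) = st r H (p * k + p * J) then 0 else 1) ≤
      (if k ≤ H then 1 else 0) + ∑ i ∈ Icc 1 N, ∑ j ∈ range J, (if k + j = (r + H * i) / p then 2 * p / (H * i : ℝ) else 0) := by
    intro k hk
    rw [mem_Icc] at hk
    have hk0 : (0 : ℝ) < k := by exact_mod_cast hk.1
    have hS : (0 : ℝ) ≤ ∑ i ∈ Icc 1 N, ∑ j ∈ range J, (if k + j = (r + H * i) / p then 2 * p / (H * i : ℝ) else 0) :=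
      sum_nonneg fun i _ => sum_nonneg fun j _ => by split_ifs <;> positivity
    by_cases hg : r < p * k ∧ st r H (p * k) = st r H (p * k + p * J)
    · rw [if_pos hg, mul_zero]
      exact add_nonneg (by split_ifs <;> norm_num) hS
    rw [if_neg hg, mul_one]
    by_cases hk1 : p * k ≤ r
    · have h2 : k ≤ H := by
        have : k ≤ p * k := Nat.le_mul_of_pos_left _ hp
        omega
      rw [if_pos h2]
      have h3 : 1 / (k : ℝ) ≤ 1 := by
        rw [div_le_one hk0]
        exact_mod_cast hk.1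
      linarith
    push Not at hk1
    obtain ⟨i, j, hi1, hj, hkj, hik⟩ := bad_point r H p J k hH hp hJ hpJ hk1 (fun h => hg ⟨hk1, h⟩)
    have hi0 : (0 : ℝ) < i := by exact_mod_cast hi1
    have hiN : i ≤ N := by
      have h2 : H * i < H * N := by
        calc H * i < 2 * p * k := hik
          _ ≤ 2 * (p * J) * N := by
            have : k ≤ J * N := le_trans hk.2 (Nat.le_mul_of_pos_left _ hJ)
            calc 2 * p * k ≤ 2 * p * (J * N) := Nat.mul_le_mul_left _ this
              _ = 2 * (p * J) * N := by ring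
          _ ≤ H * N := Nat.mul_le_mul_right _ hpJ
      exact (Nat.lt_of_mul_lt_mul_left h2).le
    have h3 : (2 * p / (H * i : ℝ)) ≤ ∑ i ∈ Icc 1 N, ∑ j ∈ range J, (if k + j = (r + H * i) / p then 2 * p / (H * i : ℝ) else 0) := by
      have h4 : (2 * p / (H * i : ℝ)) ≤ ∑ j ∈ range J, (if k + j = (r + H * i) / p then 2 * p / (H * i : ℝ) else 0) := by
        have := single_le_sum (f := fun j => if k + j = (r + H * i) / p then 2 * p / (H * i : ℝ) else 0) (s := range J)
          (fun j _ => by split_ifs <;> positivity) (mem_range.mpr hj)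
        rwa [if_pos hkj] at this
      refine h4.trans ?_
      exact single_le_sum (f := fun i : ℕ => ∑ j ∈ range J, (if k + j = (r + H * i) / p then 2 * p / (H * i : ℝ) else 0)) (s := Icc 1 N)
        (fun i _ => sum_nonneg fun j _ => by split_ifs <;> positivity) (mem_Icc.mpr ⟨hi1, hiN⟩)
    have h5 : 1 / (k : ℝ) ≤ 2 * p / (H * i : ℝ) := by
      rw [div_le_div_iff₀ hk0 (by positivity)]
      have : (H : ℝ) * i < 2 * p * k := by exact_mod_cast hik
      linarith
    have h6 : (0 : ℝ) ≤ (if k ≤ H then 1 else 0) := by split_ifs <;> norm_num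
    linarith
  refine (sum_le_sum h1).trans ?_
  rw [sum_add_distrib]
  have h2 : ∑ k ∈ Icc 1 N, (if k ≤ H then (1 : ℝ) else 0) ≤ H := by
    rw [← sum_filter, sum_const, nsmul_eq_mul, mul_one]
    have : #{k ∈ Icc 1 N | k ≤ H} ≤ H := by
      have h3 : {k ∈ Icc 1 N | k ≤ H} ⊆ Icc 1 H := by
        intro k hk
        rw [mem_filter, mem_Icc] at hk
        rw [mem_Icc]
        exact ⟨hk.1.1, hk.2⟩
      have := card_le_card h3
      rwa [Nat.card_Icc, Nat.add_sub_cancel] at this
    exact_mod_cast this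
  have h3 : ∑ k ∈ Icc 1 N, ∑ i ∈ Icc 1 N, ∑ j ∈ range J, (if k + j = (r + H * i) / p then 2 * p / (H * i : ℝ) else 0) ≤ 2 * p * J / H * (1 + Real.log N) := by
    rw [sum_comm]
    have h4 : ∀ i ∈ Icc 1 N, ∑ k ∈ Icc 1 N, ∑ j ∈ range J, (if k + j = (r + H * i) / p then 2 * p / (H * i : ℝ) else 0) ≤ 2 * p * J / H * (1 / (i : ℝ)) := by
      intro i hi
      rw [sum_comm]
      have h5 : ∀ j ∈ range J, ∑ k ∈ Icc 1 N, (if k + j = (r + H * i) / p then 2 * p / (H * i : ℝ) else 0) ≤ 2 * p / (H * i : ℝ) := by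
        intro j _
        rw [← sum_filter, sum_const, nsmul_eq_mul]
        have h6 : #{k ∈ Icc 1 N | k + j = (r + H * i) / p} ≤ 1 := by
          rw [card_le_one]
          intro a ha b hb
          rw [mem_filter] at ha hb
          omega
        have h7 : ((#{k ∈ Icc 1 N | k + j = (r + H * i) / p} : ℕ) : ℝ) ≤ 1 := by exact_mod_cast h6
        have h8 : (0 : ℝ) ≤ 2 * p / (H * i : ℝ) := by positivity
        nlinarith
      refine (sum_le_sum h5).trans (le_of_eq ?_)
      rw [sum_const, card_range, nsmul_eq_mul]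
      rw [mem_Icc] at hi
      have hi0 : (i : ℝ) ≠ 0 := by
        have : i ≠ 0 := by omega
        exact_mod_cast this
      field_simp
    refine (sum_le_sum h4).trans ?_
    rw [← mul_sum]
    exact mul_le_mul_of_nonneg_left (harm_le N) (by positivity)
  linarith

end Pool.Agent.Lib.MP_3e612f_nt.NF
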