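import Pool.Agent.Lib.MP_3e612f_nt.NF.K.Bad

/-! From windows to one bounded function (paper, Part K: K-Win). -/

set_option autoImplicit false

namespace Pool.Agent.Lib.MP_3e612f_nt.NF

open Finset
open Pool.Agent.Lib.MP_3e612f_nt.MR (mu ex)

theorem abs_mu_le_one (n : ℕ) : |mu n| ≤ 1 := by
  unfold mu
  have h := ArithmeticFunction.abs_moebius_le_one (n := n)
  exact_mod_cast h

theorem norm_mu_le_one (n : ℕ) : ‖(mu n : ℂ)‖ ≤ 1 := by
  rw [Complex.norm_real]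
  exact abs_mu_le_one n

theorem sum_Icc_add {M : Type} [AddCommMonoid M] (f : ℕ → M) (n H : ℕ) :
    ∑ m ∈ Icc 1 (n + H), f m = ∑ m ∈ Icc 1 n, f m + ∑ h ∈ Icc 1 H, f (n + h) := by
  induction H with
  | zero => simp
  | succ H ih => rw [← add_assoc, Finset.sum_Icc_succ_top (by omega), ih, Finset.sum_Icc_succ_top (by omega), add_assoc, add_assoc]

theorem sum_classes_Icc (c : ℕ → ℝ) (H T : ℕ) : ∑ n ∈ Icc 1 (H * T), c n = ∑ r ∈ Icc 1 H, ∑ j ∈ range T, c (r + H * j) := by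
  induction T with
  | zero => simp
  | succ T ih =>
    rw [mul_add, mul_one, sum_Icc_add, ih, ← sum_add_distrib]
    refine sum_congr rfl fun r _ => ?_
    rw [sum_range_succ, add_comm (H * T) r]

theorem win_tel (F : ℕ → ℂ) (hF : ∀ m, ‖F m‖ ≤ 1) (r H : ℕ) (hr : 1 ≤ r) (hF0 : ∀ m ≤ r, F m = 0) (T : ℕ) :
    ‖∑ j ∈ range T, (∑ h ∈ Icc 1 H, F (r + H * j + h)) / ((r + H * j : ℕ) : ℂ) - ∑ m ∈ Icc 1 (r + H * T), F m / m‖ ≤
      H * (1 / (r : ℝ) - 1 / ((r + H * T : ℕ) : ℝ)) := by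
  induction T with
  | zero =>
    simp only [range_zero, sum_empty, mul_zero, add_zero, zero_sub, norm_neg, sub_self]
    rw [sum_eq_zero]
    · simp
    · intro m hm
      rw [mem_Icc] at hm
      rw [hF0 m hm.2, zero_div]
  | succ T ih =>
    set n : ℕ := r + H * T with hn
    have hn0 : (0 : ℝ) < n := by
      have : 0 < n := by omega
      exact_mod_cast this
    have hn1 : r + H * (T + 1) = n + H := by
      rw [hn]
      ring
    rw [hn1, sum_Icc_add, sum_range_succ, ← hn]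
    have h1 : ‖(∑ h ∈ Icc 1 H, F (n + h)) / (n : ℂ) - ∑ h ∈ Icc 1 H, F (n + h) / ((n + h : ℕ) : ℂ)‖ ≤ H * (1 / (n : ℝ) - 1 / ((n + H : ℕ) : ℝ)) := by
      rw [sum_div, ← sum_sub_distrib]
      refine (norm_sum_le _ _).trans ?_
      have h2 : ∀ h ∈ Icc 1 H, ‖F (n + h) / (n : ℂ) - F (n + h) / ((n + h : ℕ) : ℂ)‖ ≤ 1 / (n : ℝ) - 1 / ((n + H : ℕ) : ℝ) := by
        intro h hh
        rw [mem_Icc] at hh
        have h3 : F (n + h) / (n : ℂ) - F (n + h) / ((n + h : ℕ) : ℂ) = F (n + h) * ((1 / (n : ℝ) - 1 / ((n + h : ℕ) : ℝ) : ℝ) : ℂ) := by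
          push_cast
          ring
        have h4 : (1 : ℝ) / ((n + H : ℕ) : ℝ) ≤ 1 / ((n + h : ℕ) : ℝ) := by
          refine one_div_le_one_div_of_le (by positivity) ?_
          have : n + h ≤ n + H := by omega
          exact_mod_cast this
        have h5 : (1 : ℝ) / ((n + h : ℕ) : ℝ) ≤ 1 / (n : ℝ) := by
          refine one_div_le_one_div_of_le hn0 ?_
          have : n ≤ n + h := by omega
          exact_mod_cast this
        rw [h3, norm_mul, Complex.norm_real, Real.norm_eq_abs, abs_of_nonneg (by linarith)]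
        have h6 := hF (n + h)
        have h7 : ‖F (n + h)‖ * (1 / (n : ℝ) - 1 / ((n + h : ℕ) : ℝ)) ≤ 1 * (1 / (n : ℝ) - 1 / ((n + h : ℕ) : ℝ)) := mul_le_mul_of_nonneg_right h6 (by linarith)
        linarith
      refine (sum_le_sum h2).trans (le_of_eq ?_)
      rw [sum_const, Nat.card_Icc, Nat.add_sub_cancel, nsmul_eq_mul]
    have h2 : ∑ j ∈ range T, (∑ h ∈ Icc 1 H, F (r + H * j + h)) / ((r + H * j : ℕ) : ℂ) + (∑ h ∈ Icc 1 H, F (n + h)) / (n : ℂ)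
          - (∑ m ∈ Icc 1 n, F m / m + ∑ h ∈ Icc 1 H, F (n + h) / ((n + h : ℕ) : ℂ))
        = (∑ j ∈ range T, (∑ h ∈ Icc 1 H, F (r + H * j + h)) / ((r + H * j : ℕ) : ℂ) - ∑ m ∈ Icc 1 n, F m / m)
          + ((∑ h ∈ Icc 1 H, F (n + h)) / (n : ℂ) - ∑ h ∈ Icc 1 H, F (n + h) / ((n + h : ℕ) : ℂ)) := by ring
    rw [h2]
    refine (norm_add_le _ _).trans ?_
    have h3 : (H : ℝ) * (1 / (r : ℝ) - 1 / ((n + H : ℕ) : ℝ)) = H * (1 / (r : ℝ) - 1 / (n : ℝ)) + H * (1 / (n : ℝ) - 1 / ((n + H : ℕ) : ℝ)) := by ring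
    rw [h3]
    exact add_le_add ih h1

/-- K-Win. -/
theorem kwin (ε : ℝ) (hε : 0 < ε) (H : ℕ) (hH : 1 ≤ H) : ∃ N₀ : ℕ, ∀ N : ℕ, N₀ ≤ N → ∀ g : ℕ → ℕ → ℂ, (∀ n h, ‖g n h‖ ≤ 1) →
    ε * H * Real.log N ≤ ∑ n ∈ Icc 1 N, 1 / (n : ℝ) * ‖∑ h ∈ Icc 1 H, (mu (n + h) : ℂ) * g n h‖ →
    ∃ r : ℕ, 1 ≤ r ∧ r ≤ H ∧ ∃ θ : ℕ → ℂ, (∀ n, ‖θ n‖ = 1) ∧
      ε / 2 * Real.log N ≤ ‖∑ m ∈ Icc 1 N, (mu m : ℂ) * (if r < m then θ (st r H m) * g (st r H m) (m - st r H m) else 0) / m‖ := by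
  refine ⟨⌈Real.exp (6 * H / ε)⌉₊ + 1, fun N hN g hg hbig => ?_⟩
  have hN1 : 1 ≤ N := by omega
  have hN0 : (0 : ℝ) < N := by exact_mod_cast hN1
  have hH0 : (0 : ℝ) < H := by exact_mod_cast hH
  have hlog : 6 * H / ε ≤ Real.log N := by
    rw [Real.le_log_iff_exp_le hN0]
    refine (Nat.le_ceil _).trans ?_
    have : ⌈Real.exp (6 * H / ε)⌉₊ ≤ N := by omega
    exact_mod_cast this
  have hlog' : 6 * H ≤ ε * Real.log N := by
    rw [div_le_iff₀ hε] at hlog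
    linarith
  set w : ℕ → ℂ := fun n => ∑ h ∈ Icc 1 H, (mu (n + h) : ℂ) * g n h with hw
  -- unimodular factors
  have hθ : ∀ n, ∃ θ : ℂ, ‖θ‖ = 1 ∧ θ * w n = ‖w n‖ := by
    intro n
    by_cases h0 : w n = 0
    · exact ⟨1, by simp, by simp [h0]⟩
    · have h1 : (‖w n‖ : ℂ) ≠ 0 := by
        rw [Ne, Complex.ofReal_eq_zero, norm_eq_zero]
        exact h0
      refine ⟨(starRingEnd ℂ) (w n) / ‖w n‖, ?_, ?_⟩
      · rw [norm_div, RCLike.norm_conj, Complex.norm_real, norm_norm, div_self]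
        rwa [Ne, norm_eq_zero]
      · rw [div_mul_eq_mul_div, div_eq_iff h1, mul_comm, Complex.mul_conj, Complex.normSq_eq_norm_sq]
        push_cast
        ring
  choose θ hθ1 hθ2 using hθ
  -- the class
  set T : ℕ := N / H + 1 with hT
  have hNT : N < H * T := by
    have := Nat.lt_mul_div_succ N (show 0 < H by omega)
    rw [hT]
    exact this
  have hTN : H * T ≤ N + H := by
    rw [hT, mul_add, mul_one]
    have := Nat.mul_div_le N H
    omega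
  set c : ℕ → ℝ := fun n => 1 / (n : ℝ) * ‖w n‖ with hc
  have hc0 : ∀ n, 0 ≤ c n := fun n => by rw [hc]; positivity
  have h1 : ε * H * Real.log N ≤ ∑ r ∈ Icc 1 H, ∑ j ∈ range T, c (r + H * j) := by
    rw [← sum_classes_Icc]
    refine hbig.trans ?_
    refine sum_le_sum_of_subset_of_nonneg ?_ fun i _ _ => hc0 i
    intro i hi
    rw [mem_Icc] at hi ⊢
    omega
  obtain ⟨r, hr, hrbig⟩ : ∃ r ∈ Icc 1 H, ε * Real.log N ≤ ∑ j ∈ range T, c (r + H * j) := by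
    by_contra hcon
    push Not at hcon
    have h2 : ∑ r ∈ Icc 1 H, ∑ j ∈ range T, c (r + H * j) < ∑ r ∈ Icc 1 H, ε * Real.log N :=
      sum_lt_sum_of_nonempty ⟨1, mem_Icc.mpr ⟨le_rfl, hH⟩⟩ hcon
    rw [sum_const, Nat.card_Icc, Nat.add_sub_cancel, nsmul_eq_mul] at h2
    have h3 : ε * H * Real.log N = H * (ε * Real.log N) := by ring
    linarith
  rw [mem_Icc] at hr
  obtain ⟨hr1, hrH⟩ := hr
  refine ⟨r, hr1, hrH, θ, hθ1, ?_⟩
  set F : ℕ → ℂ := fun m => (mu m : ℂ) * (if r < m then θ (st r H m) * g (st r H m) (m - st r H m) else 0) with hF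
  have hF1 : ∀ m, ‖F m‖ ≤ 1 := by
    intro m
    rw [hF]
    dsimp only
    rw [norm_mul]
    have h2 : ‖if r < m then θ (st r H m) * g (st r H m) (m - st r H m) else 0‖ ≤ 1 := by
      split_ifs
      · rw [norm_mul, hθ1, one_mul]
        exact hg _ _
      · simp
    exact mul_le_one₀ (norm_mu_le_one m) (norm_nonneg _) h2
  have hF0 : ∀ m ≤ r, F m = 0 := by
    intro m hm
    rw [hF]
    dsimp only
    rw [if_neg (by omega), mul_zero]
  have hsum : ∀ j, ∑ h ∈ Icc 1 H, F (r + H * j + h) = (‖w (r + H * j)‖ : ℂ) := by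
    intro j
    rw [← hθ2, hw]
    dsimp only
    rw [mul_sum]
    refine sum_congr rfl fun h hh => ?_
    rw [mem_Icc] at hh
    rw [hF]
    dsimp only
    have h2 : st r H (r + H * j + h) = r + H * j := by
      unfold st
      have h3 : (r + H * j + h - 1 - r) / H = j := by
        rw [Nat.div_eq_iff (by omega)]
        have : j * H = H * j := mul_comm _ _
        constructor <;> omega
      rw [h3]
    rw [if_pos (by omega), h2, Nat.add_sub_cancel_left]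
    ring
  have htel := win_tel F hF1 r H hr1 hF0 T
  have h2 : ∑ j ∈ range T, (∑ h ∈ Icc 1 H, F (r + H * j + h)) / ((r + H * j : ℕ) : ℂ) = ((∑ j ∈ range T, c (r + H * j) : ℝ) : ℂ) := by
    push_cast
    refine sum_congr rfl fun j _ => ?_
    rw [hsum, hc]
    push_cast
    ring
  rw [h2] at htel
  have hr0 : (1 : ℝ) ≤ r := by exact_mod_cast hr1
  have h3 : (H : ℝ) * (1 / (r : ℝ) - 1 / ((r + H * T : ℕ) : ℝ)) ≤ H := by
    have h4 : 1 / (r : ℝ) ≤ 1 := by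
      rw [div_le_one (by linarith)]
      exact hr0
    have h5 : (0 : ℝ) ≤ 1 / ((r + H * T : ℕ) : ℝ) := by positivity
    nlinarith
  -- cutting off at `N`
  have h4 : ‖∑ m ∈ Icc 1 (r + H * T), F m / m - ∑ m ∈ Icc 1 N, F m / m‖ ≤ 2 * H := by
    obtain ⟨d, hd⟩ := Nat.exists_eq_add_of_le (show N ≤ r + H * T by omega)
    rw [hd, sum_Icc_add, add_sub_cancel_left]
    refine (norm_sum_le _ _).trans ?_
    have h5 : ∀ h ∈ Icc 1 d, ‖F (N + h) / ((N + h : ℕ) : ℂ)‖ ≤ 1 := by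
      intro h _
      rw [norm_div, Complex.norm_natCast]
      have h6 : (1 : ℝ) ≤ ((N + h : ℕ) : ℝ) := by
        have : 1 ≤ N + h := by omega
        exact_mod_cast this
      rw [div_le_one (by linarith)]
      exact (hF1 _).trans h6
    refine (sum_le_sum h5).trans ?_
    rw [sum_const, Nat.card_Icc, Nat.add_sub_cancel, nsmul_eq_mul, mul_one]
    have h6 : d ≤ 2 * H := by omega
    exact_mod_cast h6
  have h5 : ∑ j ∈ range T, c (r + H * j) ≤ ‖((∑ j ∈ range T, c (r + H * j) : ℝ) : ℂ)‖ := by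
    rw [Complex.norm_real]
    exact le_abs_self _
  have h6 : ‖((∑ j ∈ range T, c (r + H * j) : ℝ) : ℂ)‖ ≤ ‖((∑ j ∈ range T, c (r + H * j) : ℝ) : ℂ) - ∑ m ∈ Icc 1 (r + H * T), F m / m‖
      + ‖∑ m ∈ Icc 1 (r + H * T), F m / m - ∑ m ∈ Icc 1 N, F m / m‖ + ‖∑ m ∈ Icc 1 N, F m / m‖ := by
    have h7 : ((∑ j ∈ range T, c (r + H * j) : ℝ) : ℂ) = (((∑ j ∈ range T, c (r + H * j) : ℝ) : ℂ) - ∑ m ∈ Icc 1 (r + H * T), F m / m)
      + (∑ m ∈ Icc 1 (r + H * T), F m / m - ∑ m ∈ Icc 1 N, F m / m) + ∑ m ∈ Icc 1 N, F m / m := by ring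
    conv_lhs => rw [h7]
    refine (norm_add_le _ _).trans (add_le_add (norm_add_le _ _) le_rfl)
  linarith

end Pool.Agent.Lib.MP_3e612f_nt.NF
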