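import Pool.Agent.Lib.MP_3e612f_nt.NF.K.TK
import Pool.Agent.Lib.MP_3e612f_nt.NF.K.Win

/-! Katai's inequality for logarithmic sums (paper, Part K: K-Kat). -/

set_option autoImplicit false

namespace Pool.Agent.Lib.MP_3e612f_nt.NF

open Finset
open Pool.Agent.Lib.MP_3e612f_nt.MR (mu ex)

/-- the weights `1/(p L)` -/
noncomputable def wt (P : Finset ℕ) (p : ℕ) : ℝ := 1 / ((p : ℝ) * ∑ q ∈ P, 1 / (q : ℝ))

theorem wt_nonneg (P : Finset ℕ) (p : ℕ) : 0 ≤ wt P p := by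
  unfold wt
  positivity

theorem sum_wt (P : Finset ℕ) (h : 0 < ∑ q ∈ P, 1 / (q : ℝ)) : ∑ p ∈ P, wt P p = 1 := by
  unfold wt
  have h1 : ∀ p ∈ P, 1 / ((p : ℝ) * ∑ q ∈ P, 1 / (q : ℝ)) = 1 / (p : ℝ) * (∑ q ∈ P, 1 / (q : ℝ))⁻¹ := by
    intro p _
    have h2 : ∀ a b : ℝ, 1 / (a * b) = 1 / a * b⁻¹ := fun a b => by rw [one_div, one_div, mul_inv]
    exact h2 _ _
  rw [sum_congr rfl h1, ← sum_mul, mul_inv_cancel₀ h.ne']

theorem wt_le (P : Finset ℕ) (hP : ∀ p ∈ P, p.Prime) (p : ℕ) (hp : p ∈ P) : wt P p ≤ 1 / (2 * ∑ q ∈ P, 1 / (q : ℝ)) := by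
  unfold wt
  have hp2 : (2 : ℝ) ≤ p := by exact_mod_cast (hP p hp).two_le
  have hL : 0 < ∑ q ∈ P, 1 / (q : ℝ) := sum_pos (fun q hq => by
    have := (hP q hq).pos
    positivity) ⟨p, hp⟩
  exact one_div_le_one_div_of_le (by positivity) (mul_le_mul_of_nonneg_right hp2 hL.le)

theorem mu_mul_prime (p k : ℕ) (hp : p.Prime) (hk : ¬ p ∣ k) : mu (p * k) = -mu k := by
  unfold mu
  have hcop : Nat.Coprime p k := (Nat.Prime.coprime_iff_not_dvd hp).mpr hk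
  rw [ArithmeticFunction.isMultiplicative_moebius.map_mul_of_coprime hcop, ArithmeticFunction.moebius_apply_prime hp]
  push_cast
  ring

theorem mu_mul_prime_dvd (p k : ℕ) (hp : p.Prime) (hk : p ∣ k) : mu (p * k) = 0 := by
  unfold mu
  have h1 : ¬ Squarefree (p * k) := by
    intro h
    obtain ⟨c, rfl⟩ := hk
    have h2 : p * p ∣ p * (p * c) := ⟨c, by ring⟩
    have := h p h2
    exact hp.one_lt.ne' (Nat.isUnit_iff.mp this)
  rw [ArithmeticFunction.moebius_eq_zero_of_not_squarefree h1]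
  simp

/-- one prime in the dilation -/
theorem dil_one (p : ℕ) (hp : p.Prime) (Ψ : ℕ → ℂ) (hΨ : ∀ n, ‖Ψ n‖ ≤ 1) (N : ℕ) :
    ‖∑ m ∈ Icc 1 N, (if p ∣ m then (mu m : ℂ) * Ψ m / m else 0) + 1 / (p : ℂ) * ∑ k ∈ Icc 1 N, (mu k : ℂ) * Ψ (p * k) / k‖ ≤
      1 + 1 / (p : ℝ) ^ 2 * ∑ k ∈ Icc 1 N, 1 / (k : ℝ) := by
  have hp1 : 1 ≤ p := hp.one_le
  have hp0 : (0 : ℝ) < p := by exact_mod_cast hp.pos
  have hpc : (p : ℂ) ≠ 0 := by exact_mod_cast hp.pos.ne'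
  rw [sum_dvd_Icc _ p N hp1]
  have h1 : ∑ k ∈ Icc 1 (N / p), (mu (p * k) : ℂ) * Ψ (p * k) / ((p * k : ℕ) : ℂ) + 1 / (p : ℂ) * ∑ k ∈ Icc 1 N, (mu k : ℂ) * Ψ (p * k) / k
      = 1 / (p : ℂ) * (∑ k ∈ Icc 1 (N / p), ((mu (p * k) + mu k : ℝ) : ℂ) * Ψ (p * k) / k
        + (∑ k ∈ Icc 1 N, (mu k : ℂ) * Ψ (p * k) / k - ∑ k ∈ Icc 1 (N / p), (mu k : ℂ) * Ψ (p * k) / k)) := by
    have h2 : ∑ k ∈ Icc 1 (N / p), ((mu (p * k) + mu k : ℝ) : ℂ) * Ψ (p * k) / k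
        = ∑ k ∈ Icc 1 (N / p), (mu (p * k) : ℂ) * Ψ (p * k) / k + ∑ k ∈ Icc 1 (N / p), (mu k : ℂ) * Ψ (p * k) / k := by
      rw [← sum_add_distrib]
      exact sum_congr rfl fun k _ => by push_cast; ring
    have h3 : ∑ k ∈ Icc 1 (N / p), (mu (p * k) : ℂ) * Ψ (p * k) / ((p * k : ℕ) : ℂ) = 1 / (p : ℂ) * ∑ k ∈ Icc 1 (N / p), (mu (p * k) : ℂ) * Ψ (p * k) / k := by
      rw [mul_sum]
      refine sum_congr rfl fun k hk => ?_
      rw [mem_Icc] at hk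
      have hk0 : (k : ℂ) ≠ 0 := by
        have : k ≠ 0 := by omega
        exact_mod_cast this
      push_cast
      field_simp
    rw [h2, h3]
    ring
  rw [h1, norm_mul]
  have h4 : ‖(1 : ℂ) / p‖ = 1 / (p : ℝ) := by
    rw [norm_div, norm_one, Complex.norm_natCast]
  rw [h4]
  have h5 : ‖∑ k ∈ Icc 1 N, (mu k : ℂ) * Ψ (p * k) / k - ∑ k ∈ Icc 1 (N / p), (mu k : ℂ) * Ψ (p * k) / k‖ ≤ p := by
    refine norm_tail_le (fun k => (mu k : ℂ) * Ψ (p * k)) (fun k => ?_) p N hp1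
    rw [norm_mul]
    exact mul_le_one₀ (norm_mu_le_one k) (norm_nonneg _) (hΨ _)
  have h6 : ‖∑ k ∈ Icc 1 (N / p), ((mu (p * k) + mu k : ℝ) : ℂ) * Ψ (p * k) / k‖ ≤ 1 / (p : ℝ) * ∑ k ∈ Icc 1 N, 1 / (k : ℝ) := by
    have h7 : ∀ k ∈ Icc 1 (N / p), ‖((mu (p * k) + mu k : ℝ) : ℂ) * Ψ (p * k) / k‖ ≤ 1 / (k : ℝ) * (if p ∣ k then 1 else 0) := by
      intro k _
      by_cases hk : p ∣ k
      · rw [if_pos hk, mu_mul_prime_dvd p k hp hk, zero_add, norm_div, norm_mul, Complex.norm_natCast, mul_one]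
        have := mul_le_one₀ (norm_mu_le_one k) (norm_nonneg _) (hΨ (p * k))
        gcongr
      · rw [if_neg hk, mu_mul_prime p k hp hk]
        simp
    refine (norm_sum_le _ _).trans ((sum_le_sum h7).trans ?_)
    rw [harm_dvd p _ hp1]
    refine mul_le_mul_of_nonneg_left (harm_mono _ _ ?_) (by positivity)
    exact (Nat.div_le_self _ _).trans (Nat.div_le_self _ _)
  have h8 : 1 / (p : ℝ) * (1 / (p : ℝ) * (∑ k ∈ Icc 1 N, 1 / (k : ℝ)) + p) = 1 + 1 / (p : ℝ) ^ 2 * ∑ k ∈ Icc 1 N, 1 / (k : ℝ) := by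
    field_simp
    ring
  rw [← h8]
  refine mul_le_mul_of_nonneg_left ?_ (by positivity)
  exact (norm_add_le _ _).trans (add_le_add h6 h5)

/-- K-Kat. -/
theorem kat (ε : ℝ) (hε : 0 < ε) (hε1 : ε ≤ 1) (P : Finset ℕ) (hP : ∀ p ∈ P, p.Prime) (hL : 400 / ε ^ 2 ≤ ∑ p ∈ P, 1 / (p : ℝ)) :
    ∃ N₀ : ℕ, ∀ N : ℕ, N₀ ≤ N → ∀ Ψ : ℕ → ℂ, (∀ n, ‖Ψ n‖ ≤ 1) →
    ε * Real.log N ≤ ‖∑ m ∈ Icc 1 N, (mu m : ℂ) * Ψ m / m‖ →
    ε ^ 2 / 8 * Real.log N ≤ ∑ p ∈ P, ∑ q ∈ P, wt P p * wt P q *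
      (if p ≠ q then ‖∑ k ∈ Icc 1 N, Ψ (p * k) * (starRingEnd ℂ) (Ψ (q * k)) / k‖ else 0) := by
  set L : ℝ := ∑ p ∈ P, 1 / (p : ℝ) with hLdef
  have hLpos : 0 < L := lt_of_lt_of_le (by positivity) hL
  have hL' : 400 ≤ ε ^ 2 * L := by
    rw [div_le_iff₀ (by positivity)] at hL
    linarith
  have hL400 : 400 ≤ L := by
    have : ε ^ 2 ≤ 1 := pow_le_one₀ hε.le hε1
    nlinarith
  set CP : ℝ := (30 * (#P : ℝ) ^ 2 / (ε * L) + #P) / L with hCP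
  have hCP0 : 0 ≤ CP := by positivity
  refine ⟨⌈Real.exp (4 + 16 * CP / ε)⌉₊ + 1, fun N hN Ψ hΨ hbig => ?_⟩
  have hN1 : 1 ≤ N := by omega
  have hN0 : (0 : ℝ) < N := by exact_mod_cast hN1
  set x : ℝ := Real.log N with hx
  have hx1 : 4 + 16 * CP / ε ≤ x := by
    rw [hx, Real.le_log_iff_exp_le hN0]
    refine (Nat.le_ceil _).trans ?_
    have : ⌈Real.exp (4 + 16 * CP / ε)⌉₊ ≤ N := by omega
    exact_mod_cast this
  have hx4 : 4 ≤ x := by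
    have : 0 ≤ 16 * CP / ε := by positivity
    linarith
  have hxC : CP ≤ ε * x / 16 := by
    have h1 : 16 * CP / ε ≤ x := by linarith
    rw [div_le_iff₀ hε] at h1
    linarith
  set h : ℝ := ∑ k ∈ Icc 1 N, 1 / (k : ℝ) with hh
  have hh0 : 0 ≤ h := sum_nonneg fun _ _ => by positivity
  have hhx : h ≤ 5 / 4 * x := by
    have := harm_le N
    rw [← hh, ← hx] at this
    linarith
  set S : ℂ := ∑ m ∈ Icc 1 N, (mu m : ℂ) * Ψ m / m with hS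
  set T : ℂ := ∑ p ∈ P, ∑ m ∈ Icc 1 N, (if p ∣ m then (mu m : ℂ) * Ψ m / m else 0) with hT
  set U : ℂ := ∑ p ∈ P, 1 / (p : ℂ) * ∑ k ∈ Icc 1 N, (mu k : ℂ) * Ψ (p * k) / k with hU
  have hmuΨ : ∀ m, ‖(mu m : ℂ) * Ψ m‖ ≤ 1 := fun m => by
    rw [norm_mul]
    exact mul_le_one₀ (norm_mu_le_one m) (norm_nonneg _) (hΨ _)
  -- Turan - Kubilius
  have h1 : ‖(L : ℂ) * S - T‖ ≤ ε * L * h / 20 + 30 * (#P : ℝ) ^ 2 / (ε * L) := by
    set G : ℕ → ℝ := fun m => ∑ p ∈ P, ((if p ∣ m then 1 else 0) - 1 / (p : ℝ)) with hG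
    have h2 : (L : ℂ) * S - T = -∑ m ∈ Icc 1 N, (mu m : ℂ) * Ψ m / m * (G m : ℂ) := by
      have h3 : ∀ m ∈ Icc 1 N, (mu m : ℂ) * Ψ m / m * (G m : ℂ) = ∑ p ∈ P, (if p ∣ m then (mu m : ℂ) * Ψ m / m else 0) - (L : ℂ) * ((mu m : ℂ) * Ψ m / m) := by
        intro m _
        rw [hG]
        dsimp only
        rw [sum_sub_distrib, ← hLdef]
        push_cast
        rw [mul_sub, mul_sum]
        congr 1
        · refine sum_congr rfl fun p _ => ?_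
          split_ifs <;> simp
        · ring
      rw [sum_congr rfl h3, sum_sub_distrib, sum_comm, ← hT, ← mul_sum, ← hS]
      ring
    rw [h2, norm_neg]
    refine (norm_sum_le _ _).trans ?_
    set s : ℝ := ε * L / 20 with hs
    have hs0 : 0 < s := by positivity
    have h3 : ∀ m ∈ Icc 1 N, ‖(mu m : ℂ) * Ψ m / m * (G m : ℂ)‖ ≤ s / 2 * (1 / (m : ℝ)) + 1 / (2 * s) * (1 / (m : ℝ) * G m ^ 2) := by
      intro m _
      rw [norm_mul, norm_div, Complex.norm_natCast, Complex.norm_real, Real.norm_eq_abs]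
      have h4 : ‖(mu m : ℂ) * Ψ m‖ / m * |G m| ≤ 1 / (m : ℝ) * |G m| := by
        have := hmuΨ m
        gcongr
      refine h4.trans ?_
      have h5 : |G m| ≤ s / 2 + 1 / (2 * s) * G m ^ 2 := by
        have h6 : 0 ≤ (|G m| - s) ^ 2 := sq_nonneg _
        have h7 : s / 2 + 1 / (2 * s) * G m ^ 2 - |G m| = (|G m| - s) ^ 2 / (2 * s) := by
          rw [← sq_abs (G m)]
          field_simp
          ring
        have h8 : 0 ≤ (|G m| - s) ^ 2 / (2 * s) := by positivity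
        linarith
      calc 1 / (m : ℝ) * |G m| ≤ 1 / (m : ℝ) * (s / 2 + 1 / (2 * s) * G m ^ 2) := mul_le_mul_of_nonneg_left h5 (by positivity)
        _ = _ := by ring
    refine (sum_le_sum h3).trans ?_
    rw [sum_add_distrib, ← mul_sum, ← mul_sum, ← hh]
    have h4 := tk P hP N
    rw [← hLdef, ← hh] at h4
    have h5 : 1 / (2 * s) * ∑ m ∈ Icc 1 N, 1 / (m : ℝ) * G m ^ 2 ≤ 1 / (2 * s) * (L * h + 3 * (#P : ℝ) ^ 2) := mul_le_mul_of_nonneg_left h4 (by positivity)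
    have h6 : 1 / (2 * s) * (L * h + 3 * (#P : ℝ) ^ 2) = 10 * h / ε + 30 * (#P : ℝ) ^ 2 / (ε * L) := by
      rw [hs]
      field_simp
      ring
    have h7 : 10 * h / ε ≤ ε * L * h / 40 := by
      rw [div_le_iff₀ hε]
      have : 400 * h ≤ ε ^ 2 * L * h := mul_le_mul_of_nonneg_right hL' hh0
      nlinarith
    have h8 : s / 2 * h = ε * L * h / 40 := by
      rw [hs]
      ring
    linarith
  -- dilation
  have h2 : ‖T + U‖ ≤ #P + h := by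
    rw [hT, hU, ← sum_add_distrib]
    refine (norm_sum_le _ _).trans ((sum_le_sum fun p hp => dil_one p (hP p hp) Ψ hΨ N).trans ?_)
    rw [sum_add_distrib, sum_const, nsmul_eq_mul, mul_one, ← sum_mul, ← hh]
    have := mul_le_mul_of_nonneg_right (sum_sq_inv_le P hP) hh0
    linarith
  set Φ : ℕ → ℂ := fun k => ∑ p ∈ P, (wt P p : ℂ) * Ψ (p * k) with hΦ
  have hUΦ : U = (L : ℂ) * ∑ k ∈ Icc 1 N, (mu k : ℂ) / k * Φ k := by
    rw [hU, mul_sum]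
    have h3 : ∀ p ∈ P, 1 / (p : ℂ) * ∑ k ∈ Icc 1 N, (mu k : ℂ) * Ψ (p * k) / k = ∑ k ∈ Icc 1 N, (L : ℂ) * ((mu k : ℂ) / k * ((wt P p : ℂ) * Ψ (p * k))) := by
      intro p hp
      rw [mul_sum]
      refine sum_congr rfl fun k _ => ?_
      have h4 : (L : ℂ) * (wt P p : ℂ) = 1 / (p : ℂ) := by
        have h5 : L * wt P p = 1 / (p : ℝ) := by
          unfold wt
          rw [← hLdef]
          have := (hP p hp).pos
          field_simp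
        rw [← Complex.ofReal_mul, h5]
        push_cast
        rfl
      rw [← h4]
      ring
    rw [sum_congr rfl h3, sum_comm]
    refine sum_congr rfl fun k _ => ?_
    rw [hΦ, ← mul_sum, ← mul_sum]
  have h3 : ε * x - (ε * h / 20 + CP + h / L) ≤ ∑ k ∈ Icc 1 N, 1 / (k : ℝ) * ‖Φ k‖ := by
    have h4 : L * ‖S‖ ≤ ‖(L : ℂ) * S - T‖ + ‖T + U‖ + ‖U‖ := by
      have h5 : L * ‖S‖ = ‖(L : ℂ) * S‖ := by
        rw [norm_mul, Complex.norm_real, Real.norm_eq_abs, abs_of_pos hLpos]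
      have h6 : (L : ℂ) * S = ((L : ℂ) * S - T) + (T + U) - U := by ring
      rw [h5]
      conv_lhs => rw [h6]
      exact (norm_sub_le _ _).trans (add_le_add (norm_add_le _ _) le_rfl)
    have h5 : ‖U‖ ≤ L * ∑ k ∈ Icc 1 N, 1 / (k : ℝ) * ‖Φ k‖ := by
      rw [hUΦ, norm_mul, Complex.norm_real, Real.norm_eq_abs, abs_of_pos hLpos]
      refine mul_le_mul_of_nonneg_left ((norm_sum_le _ _).trans (sum_le_sum fun k _ => ?_)) hLpos.le
      rw [norm_mul, norm_div, Complex.norm_natCast]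
      have := norm_mu_le_one k
      gcongr
    have h6 : L * (ε * x) ≤ L * ‖S‖ := mul_le_mul_of_nonneg_left hbig hLpos.le
    have h7 : L * (ε * h / 20 + CP + h / L) = ε * L * h / 20 + 30 * (#P : ℝ) ^ 2 / (ε * L) + #P + h := by
      rw [hCP]
      field_simp
      ring
    have h8 : L * (ε * x - (ε * h / 20 + CP + h / L)) ≤ L * ∑ k ∈ Icc 1 N, 1 / (k : ℝ) * ‖Φ k‖ := by
      rw [mul_sub, h7]
      linarith
    exact le_of_mul_le_mul_left h8 hLpos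
  have h4 : 3 / 4 * (ε * x) ≤ ∑ k ∈ Icc 1 N, 1 / (k : ℝ) * ‖Φ k‖ := by
    have h5 : ε * h / 20 ≤ ε * x / 16 := by
      have : ε * h ≤ ε * (5 / 4 * x) := mul_le_mul_of_nonneg_left hhx hε.le
      linarith
    have h6 : h / L ≤ ε * x / 16 := by
      rw [div_le_iff₀ hLpos]
      have h7 : ε * x / 16 * L = (ε * L) * x / 16 := by ring
      have h8 : 400 ≤ ε * L := by nlinarith
      rw [h7]
      nlinarith
    linarith
  -- Cauchy - Schwarz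
  have h5 : 9 / 20 * (ε ^ 2 * x) ≤ ∑ k ∈ Icc 1 N, 1 / (k : ℝ) * ‖Φ k‖ ^ 2 := by
    set s : ℝ := 3 / 5 * ε with hs
    have hs0 : 0 < s := by positivity
    have h6 : ∀ k ∈ Icc 1 N, 1 / (k : ℝ) * ‖Φ k‖ ≤ s / 2 * (1 / (k : ℝ)) + 1 / (2 * s) * (1 / (k : ℝ) * ‖Φ k‖ ^ 2) := by
      intro k _
      have h7 : ‖Φ k‖ ≤ s / 2 + 1 / (2 * s) * ‖Φ k‖ ^ 2 := by
        have h8 : s / 2 + 1 / (2 * s) * ‖Φ k‖ ^ 2 - ‖Φ k‖ = (‖Φ k‖ - s) ^ 2 / (2 * s) := by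
          field_simp
          ring
        have h9 : 0 ≤ (‖Φ k‖ - s) ^ 2 / (2 * s) := by positivity
        linarith
      calc 1 / (k : ℝ) * ‖Φ k‖ ≤ 1 / (k : ℝ) * (s / 2 + 1 / (2 * s) * ‖Φ k‖ ^ 2) := mul_le_mul_of_nonneg_left h7 (by positivity)
        _ = _ := by ring
    have h7 := h4.trans (sum_le_sum h6)
    rw [sum_add_distrib, ← mul_sum, ← mul_sum, ← hh] at h7
    have h8 : s / 2 * h ≤ 3 / 8 * (ε * x) := by
      rw [hs]
      have : ε * h ≤ ε * (5 / 4 * x) := mul_le_mul_of_nonneg_left hhx hε.le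
      linarith
    have h9 : 3 / 8 * (ε * x) ≤ 1 / (2 * s) * ∑ k ∈ Icc 1 N, 1 / (k : ℝ) * ‖Φ k‖ ^ 2 := by linarith
    have h10 : 2 * s * (3 / 8 * (ε * x)) ≤ 2 * s * (1 / (2 * s) * ∑ k ∈ Icc 1 N, 1 / (k : ℝ) * ‖Φ k‖ ^ 2) := mul_le_mul_of_nonneg_left h9 (by positivity)
    have h11 : 2 * s * (1 / (2 * s) * ∑ k ∈ Icc 1 N, 1 / (k : ℝ) * ‖Φ k‖ ^ 2) = ∑ k ∈ Icc 1 N, 1 / (k : ℝ) * ‖Φ k‖ ^ 2 := by
      field_simp
    rw [h11] at h10
    refine le_trans (le_of_eq ?_) h10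
    rw [hs]
    ring
  -- expanding the square
  set B : ℕ → ℕ → ℂ := fun p q => ∑ k ∈ Icc 1 N, Ψ (p * k) * (starRingEnd ℂ) (Ψ (q * k)) / k with hB
  have h6 : ((∑ k ∈ Icc 1 N, 1 / (k : ℝ) * ‖Φ k‖ ^ 2 : ℝ) : ℂ) = ∑ p ∈ P, ∑ q ∈ P, (wt P p : ℂ) * (wt P q : ℂ) * B p q := by
    have h7 : ∀ k ∈ Icc 1 N, (((1 / (k : ℝ) * ‖Φ k‖ ^ 2 : ℝ)) : ℂ) = ∑ p ∈ P, ∑ q ∈ P, (wt P p : ℂ) * (wt P q : ℂ) * (Ψ (p * k) * (starRingEnd ℂ) (Ψ (q * k)) / k) := by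
      intro k _
      have h8 : ((‖Φ k‖ ^ 2 : ℝ) : ℂ) = Φ k * (starRingEnd ℂ) (Φ k) := by
        rw [Complex.mul_conj, Complex.normSq_eq_norm_sq]
      rw [Complex.ofReal_mul, h8, hΦ]
      dsimp only
      rw [map_sum, sum_mul_sum, mul_sum]
      refine sum_congr rfl fun p _ => ?_
      rw [mul_sum]
      refine sum_congr rfl fun q _ => ?_
      rw [map_mul, Complex.conj_ofReal]
      push_cast
      ring
    rw [Complex.ofReal_sum, sum_congr rfl h7, sum_comm]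
    refine sum_congr rfl fun p _ => ?_
    rw [sum_comm]
    refine sum_congr rfl fun q _ => ?_
    rw [hB, mul_sum]
  have h7 : ∑ k ∈ Icc 1 N, 1 / (k : ℝ) * ‖Φ k‖ ^ 2 ≤ ∑ p ∈ P, ∑ q ∈ P, wt P p * wt P q * ‖B p q‖ := by
    have h8 : ∑ k ∈ Icc 1 N, 1 / (k : ℝ) * ‖Φ k‖ ^ 2 ≤ ‖((∑ k ∈ Icc 1 N, 1 / (k : ℝ) * ‖Φ k‖ ^ 2 : ℝ) : ℂ)‖ := by
      rw [Complex.norm_real]
      exact le_abs_self _
    refine h8.trans ?_
    rw [h6]
    refine (norm_sum_le _ _).trans (sum_le_sum fun p _ => (norm_sum_le _ _).trans (sum_le_sum fun q _ => ?_))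
    rw [norm_mul, norm_mul, Complex.norm_real, Complex.norm_real, Real.norm_eq_abs, Real.norm_eq_abs, abs_of_nonneg (wt_nonneg _ _), abs_of_nonneg (wt_nonneg _ _)]
  have h8 : ∑ p ∈ P, ∑ q ∈ P, wt P p * wt P q * ‖B p q‖ ≤ ∑ p ∈ P, ∑ q ∈ P, wt P p * wt P q * (if p ≠ q then ‖B p q‖ else 0) + 1 / (2 * L) * h := by
    have h9 : ∀ p ∈ P, ∑ q ∈ P, wt P p * wt P q * ‖B p q‖ ≤ ∑ q ∈ P, wt P p * wt P q * (if p ≠ q then ‖B p q‖ else 0) + wt P p * (1 / (2 * L) * h) := by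
      intro p hp
      have h10 : ∀ q ∈ P, wt P p * wt P q * ‖B p q‖ = wt P p * wt P q * (if p ≠ q then ‖B p q‖ else 0) + (if p = q then wt P p * wt P q * ‖B p q‖ else 0) := by
        intro q _
        by_cases hpq : p = q <;> simp [hpq]
      rw [sum_congr rfl h10, sum_add_distrib, sum_ite_eq, if_pos hp]
      refine add_le_add le_rfl ?_
      rw [mul_assoc]
      refine mul_le_mul_of_nonneg_left ?_ (wt_nonneg _ _)
      have h11 : ‖B p p‖ ≤ h := by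
        rw [hB, hh]
        refine (norm_sum_le _ _).trans (sum_le_sum fun k _ => ?_)
        rw [norm_div, norm_mul, Complex.norm_natCast, RCLike.norm_conj]
        have := mul_le_one₀ (hΨ (p * k)) (norm_nonneg _) (hΨ (p * k))
        gcongr
      exact mul_le_mul (wt_le P hP p hp) h11 (norm_nonneg _) (by positivity)
    refine (sum_le_sum h9).trans (le_of_eq ?_)
    rw [sum_add_distrib, ← sum_mul, sum_wt P hLpos, one_mul]
  have h9 : 1 / (2 * L) * h ≤ 1 / 640 * (ε ^ 2 * x) := by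
    rw [one_div_mul_eq_div, div_le_iff₀ (by positivity)]
    have h10 : 1 / 640 * (ε ^ 2 * x) * (2 * L) = (ε ^ 2 * L) * x / 320 := by ring
    rw [h10]
    have : 400 * x ≤ (ε ^ 2 * L) * x := mul_le_mul_of_nonneg_right hL' (by linarith)
    linarith
  have h10 : 0 ≤ ε ^ 2 * x := by positivity
  have h11 := h5.trans (h7.trans h8)
  have h12 : ε ^ 2 / 8 * x = 1 / 8 * (ε ^ 2 * x) := by ring
  rw [h12]
  linarith

end Pool.Agent.Lib.MP_3e612f_nt.NF
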