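import Pool.Agent.Lib.MP_3e612f_nt.NF.K.Kat

/-! Correlation of two dilates on a good window (paper, Part K: K-Main, local step). -/

set_option autoImplicit false

namespace Pool.Agent.Lib.MP_3e612f_nt.NF

open Finset
open Pool.Agent.Lib.MP_3e612f_nt.MR (mu ex)

/-- the bounded function made of the pieces `θ_n f_n` -/
noncomputable def Psi (r H : ℕ) (θ : ℕ → ℂ) (g : ℕ → ℕ → ℂ) (m : ℕ) : ℂ :=
  if r < m then θ (st r H m) * g (st r H m) (m - st r H m) else 0

theorem norm_Psi_le (r H : ℕ) (θ : ℕ → ℂ) (g : ℕ → ℕ → ℂ) (hθ : ∀ n, ‖θ n‖ = 1) (hg : ∀ n h, ‖g n h‖ ≤ 1) (m : ℕ) : ‖Psi r H θ g m‖ ≤ 1 := by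
  unfold Psi
  split_ifs
  · rw [norm_mul, hθ, one_mul]
    exact hg _ _
  · simp

/-- good point -/
def Good (r H p J k : ℕ) : Prop := r < p * k ∧ st r H (p * k) = st r H (p * k + p * J)

theorem Good.psi {r H p J k : ℕ} (h : Good r H p J k) (θ : ℕ → ℂ) (g : ℕ → ℕ → ℂ) (j : ℕ) (hj : j < J) :
    Psi r H θ g (p * (k + j)) = θ (st r H (p * k)) * g (st r H (p * k)) (p * k - st r H (p * k) + p * j) := by
  obtain ⟨h1, h2⟩ := h
  have h3 : p * (k + j) = p * k + p * j := mul_add _ _ _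
  have h4 : p * j ≤ p * J := Nat.mul_le_mul_left _ hj.le
  have h5 : st r H (p * (k + j)) = st r H (p * k) := by
    apply le_antisymm
    · rw [h2]
      exact st_mono r H (by omega)
    · exact st_mono r H (by omega)
  have h6 := st_lt r H h1
  unfold Psi
  rw [if_pos (by omega), h5, h3]
  congr 2
  omega

/-- the grid point seen from `n/q` -/
theorem Good.st_eq {r H p q J n : ℕ} (hp : 1 ≤ p) (hJ : 1 ≤ J) (h : Good r H p J (n / (q * p))) :
    st r H (p * (n / (q * p))) = st r H (n / q) := by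
  obtain ⟨h1, h2⟩ := h
  rw [← Nat.div_div_eq_div_mul] at *
  have h3 := Nat.mul_div_le (n / q) p
  have h4 := Nat.lt_mul_div_succ (n / q) (show 0 < p by omega)
  rw [mul_add, mul_one] at h4
  have h5 : p ≤ p * J := Nat.le_mul_of_pos_right _ hJ
  apply le_antisymm
  · exact st_mono r H h3
  · rw [h2]
    exact st_mono r H (by omega)

/-- good windows do not leave the interval -/
theorem Good.le {r H p J k : ℕ} (hH : 1 ≤ H) (h : Good r H p J k) : p * k - st r H (p * k) + p * J ≤ H := by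
  obtain ⟨h1, h2⟩ := h
  have h3 := lt_st r H hH (m := p * k + p * J) (by omega)
  rw [← h2] at h3
  have h4 := st_lt r H h1
  omega

/-- the local alternative -/
theorem loc_alt (r H p q J k : ℕ) (hJ : 1 ≤ J) (θ : ℕ → ℂ) (g : ℕ → ℕ → ℂ) (hθ : ∀ n, ‖θ n‖ = 1) (hg : ∀ n h, ‖g n h‖ ≤ 1) (κ : ℝ) (hκ : 0 ≤ κ)
    (R : Prop) [Decidable R]
    (hR : Good r H p J k → Good r H q J k → κ * J ≤ ‖∑ j ∈ range J, g (st r H (p * k)) (p * k - st r H (p * k) + p * j) *
      (starRingEnd ℂ) (g (st r H (q * k)) (q * k - st r H (q * k) + q * j))‖ → R)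
    [Decidable (Good r H p J k)] [Decidable (Good r H q J k)] :
    ‖∑ j ∈ range J, Psi r H θ g (p * (k + j)) * (starRingEnd ℂ) (Psi r H θ g (q * (k + j)))‖ / J ≤
      κ + (if R ∧ Good r H p J k ∧ Good r H q J k then 1 else 0) + (if Good r H p J k then 0 else 1) + (if Good r H q J k then 0 else 1) := by
  have hJ0 : (0 : ℝ) < J := by exact_mod_cast hJ
  have htriv : ‖∑ j ∈ range J, Psi r H θ g (p * (k + j)) * (starRingEnd ℂ) (Psi r H θ g (q * (k + j)))‖ / J ≤ 1 := by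
    rw [div_le_one hJ0]
    refine (norm_sum_le _ _).trans ?_
    have h1 : ∀ j ∈ range J, ‖Psi r H θ g (p * (k + j)) * (starRingEnd ℂ) (Psi r H θ g (q * (k + j)))‖ ≤ 1 := by
      intro j _
      rw [norm_mul, RCLike.norm_conj]
      exact mul_le_one₀ (norm_Psi_le r H θ g hθ hg _) (norm_nonneg _) (norm_Psi_le r H θ g hθ hg _)
    refine (sum_le_sum h1).trans ?_
    rw [sum_const, card_range, nsmul_eq_mul, mul_one]
  by_cases hgp : Good r H p J k
  swap
  · rw [if_neg hgp]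
    have h1 : (0 : ℝ) ≤ (if R ∧ Good r H p J k ∧ Good r H q J k then 1 else 0) := by split_ifs <;> norm_num
    have h2 : (0 : ℝ) ≤ (if Good r H q J k then 0 else 1) := by split_ifs <;> norm_num
    linarith
  by_cases hgq : Good r H q J k
  swap
  · rw [if_neg hgq]
    have h1 : (0 : ℝ) ≤ (if R ∧ Good r H p J k ∧ Good r H q J k then 1 else 0) := by split_ifs <;> norm_num
    have h2 : (0 : ℝ) ≤ (if Good r H p J k then 0 else 1) := by split_ifs <;> norm_num
    linarith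
  rw [if_pos hgp, if_pos hgq]
  have h1 : ∑ j ∈ range J, Psi r H θ g (p * (k + j)) * (starRingEnd ℂ) (Psi r H θ g (q * (k + j)))
      = (θ (st r H (p * k)) * (starRingEnd ℂ) (θ (st r H (q * k)))) * ∑ j ∈ range J, g (st r H (p * k)) (p * k - st r H (p * k) + p * j) *
      (starRingEnd ℂ) (g (st r H (q * k)) (q * k - st r H (q * k) + q * j)) := by
    rw [mul_sum]
    refine sum_congr rfl fun j hj => ?_
    rw [mem_range] at hj
    rw [hgp.psi θ g j hj, hgq.psi θ g j hj, map_mul]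
    ring
  by_cases hbig : κ * J ≤ ‖∑ j ∈ range J, g (st r H (p * k)) (p * k - st r H (p * k) + p * j) *
      (starRingEnd ℂ) (g (st r H (q * k)) (q * k - st r H (q * k) + q * j))‖
  · rw [if_pos ⟨hR hgp hgq hbig, hgp, hgq⟩]
    linarith
  · push Not at hbig
    have h2 : (0 : ℝ) ≤ (if R ∧ Good r H p J k ∧ Good r H q J k then 1 else 0) := by split_ifs <;> norm_num
    have h3 : ‖∑ j ∈ range J, Psi r H θ g (p * (k + j)) * (starRingEnd ℂ) (Psi r H θ g (q * (k + j)))‖ / J ≤ κ := by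
      rw [div_le_iff₀ hJ0, h1, norm_mul, norm_mul, RCLike.norm_conj, hθ, hθ, one_mul, one_mul]
      exact hbig.le
    linarith

open scoped Classical in
/-- one pair of primes -/
theorem loc_pair (r H p q J N : ℕ) (hH : 1 ≤ H) (hr : r ≤ H) (hJ : 1 ≤ J) (hp : 1 ≤ p) (hq : 1 ≤ q) (hpJ : 2 * (p * J) ≤ H) (hqJ : 2 * (q * J) ≤ H)
    (θ : ℕ → ℂ) (g : ℕ → ℕ → ℂ) (hθ : ∀ n, ‖θ n‖ = 1) (hg : ∀ n h, ‖g n h‖ ≤ 1) (κ : ℝ) (hκ : 0 ≤ κ) (R : ℕ → Prop)
    (hR : ∀ k, Good r H p J k → Good r H q J k → κ * J ≤ ‖∑ j ∈ range J, g (st r H (p * k)) (p * k - st r H (p * k) + p * j) *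
      (starRingEnd ℂ) (g (st r H (q * k)) (q * k - st r H (q * k) + q * j))‖ → R k) :
    ‖∑ k ∈ Icc 1 N, Psi r H θ g (p * k) * (starRingEnd ℂ) (Psi r H θ g (q * k)) / k‖ ≤
      κ * (1 + Real.log N) + ∑ k ∈ Icc 1 N, 1 / (k : ℝ) * (if R k ∧ Good r H p J k ∧ Good r H q J k then 1 else 0)
        + (2 * p * J / H * (1 + Real.log N) + H) + (2 * q * J / H * (1 + Real.log N) + H) + 2 * J := by
  have h1 := slide (fun k => Psi r H θ g (p * k) * (starRingEnd ℂ) (Psi r H θ g (q * k))) (fun k => by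
    rw [norm_mul, RCLike.norm_conj]
    exact mul_le_one₀ (norm_Psi_le r H θ g hθ hg _) (norm_nonneg _) (norm_Psi_le r H θ g hθ hg _)) J hJ N
  refine h1.trans (add_le_add ?_ le_rfl)
  have h2 : ∀ k ∈ Icc 1 N, 1 / (k : ℝ) * (‖∑ j ∈ range J, Psi r H θ g (p * (k + j)) * (starRingEnd ℂ) (Psi r H θ g (q * (k + j)))‖ / J) ≤
      κ * (1 / (k : ℝ)) + 1 / (k : ℝ) * (if R k ∧ Good r H p J k ∧ Good r H q J k then 1 else 0)
        + 1 / (k : ℝ) * (if Good r H p J k then 0 else 1) + 1 / (k : ℝ) * (if Good r H q J k then 0 else 1) := by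
    intro k _
    have h3 := loc_alt r H p q J k hJ θ g hθ hg κ hκ (R k) (hR k)
    have h4 := mul_le_mul_of_nonneg_left h3 (show (0 : ℝ) ≤ 1 / (k : ℝ) by positivity)
    refine h4.trans (le_of_eq ?_)
    ring
  refine (sum_le_sum h2).trans ?_
  rw [sum_add_distrib, sum_add_distrib, sum_add_distrib, ← mul_sum]
  have h3 := mul_le_mul_of_nonneg_left (harm_le N) hκ
  have h4 := bad_le r H p J N hH hr hp hJ hpJ
  have h5 := bad_le r H q J N hH hr hq hJ hqJ
  have h6 : ∑ k ∈ Icc 1 N, 1 / (k : ℝ) * (if Good r H p J k then 0 else 1) ≤ 2 * p * J / H * (1 + Real.log N) + H := by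
    refine le_trans (le_of_eq ?_) h4
    refine sum_congr rfl fun k _ => ?_
    exact congrArg (fun y : ℝ => 1 / (k : ℝ) * y) (if_congr Iff.rfl rfl rfl)
  have h7 : ∑ k ∈ Icc 1 N, 1 / (k : ℝ) * (if Good r H q J k then 0 else 1) ≤ 2 * q * J / H * (1 + Real.log N) + H := by
    refine le_trans (le_of_eq ?_) h5
    refine sum_congr rfl fun k _ => ?_
    exact congrArg (fun y : ℝ => 1 / (k : ℝ) * y) (if_congr Iff.rfl rfl rfl)
  linarith

end Pool.Agent.Lib.MP_3e612f_nt.NF
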