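import Pool.Agent.Lib.MP_3e612f_nt.NF.F.Scale

/-! The set of the multiples `k x` modulo 1 of the elements of a closed periodic set. -/

set_option autoImplicit false

namespace Pool.Agent.Lib.MP_3e612f_nt.NF

open Finset
open Pool.Agent.Lib.MP_3e612f_nt.MR (mu ex)

/-- `k C + ℤ` -/
def mult (k : ℕ) (C : Set ℝ) : Set ℝ := ⋃ i ∈ range k, {y : ℝ | (y - i) / k ∈ C}

theorem mult_closed (k : ℕ) (C : Set ℝ) (hC : IsClosed C) : IsClosed (mult k C) := by
  refine isClosed_biUnion_finset fun i _ => ?_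
  exact hC.preimage (by fun_prop : Continuous (fun x : ℝ => (x - (i : ℝ)) / k))

theorem mem_mult (k : ℕ) (hk : 1 ≤ k) (C : Set ℝ) (hper : ∀ x ∈ C, ∀ z : ℤ, x + z ∈ C) (y : ℝ) :
    y ∈ mult k C ↔ ∃ x ∈ C, ∃ z : ℤ, y = k * x + z := by
  have hk0 : (k : ℝ) ≠ 0 := by
    have : k ≠ 0 := by omega
    exact_mod_cast this
  unfold mult
  simp only [Set.mem_iUnion, Set.mem_ofPred_eq, exists_prop]
  constructor
  · rintro ⟨i, -, hi⟩
    refine ⟨_, hi, (i : ℤ), ?_⟩
    push_cast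
    field_simp
    ring
  · rintro ⟨x, hx, z, rfl⟩
    have hkz : (k : ℤ) ≠ 0 := by
      have : k ≠ 0 := by omega
      exact_mod_cast this
    have h1 := Int.emod_nonneg z hkz
    have h2 := Int.emod_lt_of_pos z (show (0 : ℤ) < k by exact_mod_cast hk)
    refine ⟨(z % k).toNat, ?_, ?_⟩
    · rw [mem_range]
      omega
    · have h3 : (((z % k).toNat : ℕ) : ℝ) = ((z % k : ℤ) : ℝ) := by
        have := Int.toNat_of_nonneg h1
        exact_mod_cast this
      have h4 : ((z : ℤ) : ℝ) = k * ((z / k : ℤ) : ℝ) + ((z % k : ℤ) : ℝ) := by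
        have := Int.mul_ediv_add_emod z k
        exact_mod_cast this.symm
      have h5 : (k * x + (z : ℝ) - (((z % k).toNat : ℕ) : ℝ)) / k = x + ((z / k : ℤ) : ℝ) := by
        rw [h3, h4]
        field_simp
        ring
      rw [h5]
      exact hper _ hx _

theorem mult_per (k : ℕ) (hk : 1 ≤ k) (C : Set ℝ) (hper : ∀ x ∈ C, ∀ z : ℤ, x + z ∈ C) : ∀ y ∈ mult k C, ∀ z : ℤ, y + z ∈ mult k C := by
  intro y hy z
  rw [mem_mult k hk C hper] at hy ⊢
  obtain ⟨x, hx, w, rfl⟩ := hy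
  exact ⟨x, hx, w + z, by push_cast; ring⟩

theorem mult_null (k : ℕ) (hk : 1 ≤ k) (C : Set ℝ) (h0 : MeasureTheory.volume C = 0) : MeasureTheory.volume (mult k C) = 0 := by
  have hk0 : (k : ℝ) ≠ 0 := by
    have : k ≠ 0 := by omega
    exact_mod_cast this
  unfold mult
  refine nonpos_iff_eq_zero.mp ((MeasureTheory.measure_biUnion_finset_le _ _).trans (le_of_eq (sum_eq_zero fun i _ => ?_)))
  have h1 : {y : ℝ | (y - i) / k ∈ C} = {x : ℝ | ∃ y ∈ C, x = ((k : ℤ) : ℝ) * y + ((i : ℤ) : ℝ)} := by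
    ext y
    simp only [Set.mem_ofPred_eq]
    constructor
    · intro h
      refine ⟨_, h, ?_⟩
      push_cast
      field_simp
      ring
    · rintro ⟨x, hx, rfl⟩
      have : (((k : ℤ) : ℝ) * x + ((i : ℤ) : ℝ) - (i : ℝ)) / k = x := by
        push_cast
        field_simp
        ring
      rw [this]
      exact hx
  rw [h1, volume_affine C k (by
    have : k ≠ 0 := by omega
    exact_mod_cast this) i, h0, mul_zero]

end Pool.Agent.Lib.MP_3e612f_nt.NF
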