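import Pool.Agent.Lib.MP_3e612f_nt.NF.U.MainG
import Pool.Agent.Lib.MP_3e612f_nt.NF.K.Contra
import Pool.Agent.Lib.MP_3e612f_nt.NF.K.Mult

/-! Katai's method with windows, scalar frequencies, robust form (paper v2, Part K). -/

set_option autoImplicit false

namespace Pool.Agent.Lib.MP_3e612f_nt.NF

open Finset
open Pool.Agent.Lib.MP_3e612f_nt.MR (mu ex)

/-- The hypothesis on pairs, scalar frequencies; `A δ H o` = `o` is admissible at scale `H` with closeness `δ`. -/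
def PairHypS (t : ℕ) {Om : Type} (f : Om → ℕ → ℂ) (fr : Om → ℝ) (A : ℝ → ℕ → Om → Prop) : Prop :=
  ∀ κ : ℝ, 0 < κ → ∃ B : ℕ, ∀ (X : ℕ) (lam τ : ℝ), 0 < lam → 0 < τ → ∃ δ : ℝ, 0 < δ ∧ ∃ H₀ : ℕ, ∀ H : ℕ, H₀ ≤ H → ∀ (p q J : ℕ), 1 ≤ p → p ≤ X → 1 ≤ q → q ≤ X →
    lam * H ≤ J → ∀ (o o' : Om) (s s' : ℕ), A δ H o → A δ H o' → s + p * J ≤ H → s' + q * J ≤ H →
    κ * J ≤ ‖∑ j ∈ range J, f o (s + p * j) * (starRingEnd ℂ) (f o' (s' + q * j))‖ →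
    ∃ k : ℕ, 1 ≤ k ∧ k ≤ B ∧ dZ (k * ((p : ℝ) ^ t * fr o - (q : ℝ) ^ t * fr o')) ≤ τ

/-- `A δ H o` may be assumed monotone in `δ` by the user: hypothesis `hmono`. -/
theorem windows_s (t : ℕ) (ht : 1 ≤ t) {Om : Type} (f : Om → ℕ → ℂ) (hf : ∀ o n, ‖f o n‖ ≤ 1) (fr : Om → ℝ) (A : ℝ → ℕ → Om → Prop)
    (hmono : ∀ δ δ' : ℝ, δ ≤ δ' → ∀ H o, A δ H o → A δ' H o) (hp : PairHypS t f fr A)
    (C : Set ℝ) (hC : IsClosed C) (hCp : ∀ x ∈ C, ∀ z : ℤ, x + z ∈ C) (hC0 : MeasureTheory.volume C = 0) (ε : ℝ) (hε : 0 < ε) :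
    ∃ R₀ : ℕ, ∀ ρ₀ : ℝ, 0 < ρ₀ → ∃ δ : ℝ, 0 < δ ∧ ∃ H₀ : ℕ, ∀ H : ℕ, H₀ ≤ H → ∃ N₀ : ℕ, ∀ N : ℕ, N₀ ≤ N → ∀ o : ℕ → Om,
      (∀ n, A δ H (o n) ∧ (∃ x ∈ C, |fr (o n) - x| ≤ δ) ∧ (∀ r : ℕ, 1 ≤ r → r < R₀ → ∀ b : ℤ, ρ₀ ≤ |fr (o n) - b / r|)) →
        ∑ n ∈ Icc 1 N, 1 / (n : ℝ) * ‖∑ h ∈ Icc 1 H, (mu (n + h) : ℂ) * f (o n) h‖ ≤ ε * H * Real.log N := by
  classical
  -- constants
  set e : ℝ := min (ε / 2) 1 with he
  have he0 : 0 < e := lt_min (by positivity) one_pos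
  have he1 : e ≤ 1 := min_le_right _ _
  have heε : 2 * e ≤ ε := by
    have := min_le_left (ε / 2) 1
    linarith
  obtain ⟨B, hB⟩ := hp (e ^ 2 / 64) (by positivity)
  set U : Finset ℕ := Icc 1 (B + 1) with hU
  have hUne : U.Nonempty := ⟨1, mem_Icc.mpr ⟨le_rfl, by omega⟩⟩
  have hU0 : (0 : ℝ) < (#U : ℝ) := by
    have := hUne.card_pos
    exact_mod_cast this
  set κ₂ : ℝ := e ^ 2 / 32 / (#U : ℝ) with hκ₂
  have hκ₂0 : 0 < κ₂ := by positivity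
  obtain ⟨Ct, hCt1, hsv⟩ := sieve_bound' t ht
  -- the closed set
  set C' : Set ℝ := ⋃ k ∈ U, mult k C with hC'
  have hU1 : ∀ k ∈ U, 1 ≤ k := fun k hk => (mem_Icc.mp hk).1
  have hCcl : IsClosed C' := U.finite_toSet.isClosed_biUnion fun k _ => mult_closed k C hC
  have hCper : ∀ x ∈ C', ∀ z : ℤ, x + z ∈ C' := by
    intro x hx z
    rw [hC'] at hx ⊢
    simp only [Set.mem_iUnion] at hx ⊢
    obtain ⟨k, hk, hx⟩ := hx
    exact ⟨k, hk, mult_per k (hU1 k hk) C hCp x hx z⟩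
  have hCvol : MeasureTheory.volume (C' ∩ Set.Ico 0 1) ≤ ENNReal.ofReal 0 := by
    rw [ENNReal.ofReal_zero]
    refine (MeasureTheory.measure_mono Set.inter_subset_left).trans ?_
    refine (MeasureTheory.measure_biUnion_finset_le _ _).trans (le_of_eq (sum_eq_zero fun k hk => ?_))
    exact mult_null k (hU1 k hk) C hC0
  have hmemC : ∀ k ∈ U, ∀ x ∈ C, ∀ z : ℤ, k * x + z ∈ C' := by
    intro k hk x hx z
    rw [hC']
    simp only [Set.mem_iUnion]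
    exact ⟨k, hk, (mem_mult k (hU1 k hk) C hCp _).mpr ⟨x, hx, z, rfl⟩⟩
  set δ : ℝ := min (κ₂ ^ 4 / 8) (e ^ 2 / 400) with hδ
  have hδ0 : 0 < δ := lt_min (by positivity) (by positivity)
  obtain ⟨r₀, hr₀⟩ := hsv C' hCcl hCper 0 δ le_rfl hδ0 hCvol
  refine ⟨(B + 1) * r₀, fun ρ₀ hρ₀ => ?_⟩
  obtain ⟨P, hPY, hPL, ρ, hρ, hsieve⟩ := hr₀ (ρ₀ / 2) (by positivity) 1
  have hP : ∀ p ∈ P, p.Prime := fun p hp => (hPY p hp).1
  set L : ℝ := ∑ p ∈ P, 1 / (p : ℝ) with hL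
  have hδL : 1 ≤ δ * L := by
    rw [div_le_iff₀ hδ0] at hPL
    linarith
  have hLpos : 0 < L := lt_of_lt_of_le (by positivity) hPL
  have hL400 : 400 / e ^ 2 ≤ L := by
    refine le_trans ?_ hPL
    rw [div_le_div_iff₀ (by positivity) hδ0]
    have := min_le_right (κ₂ ^ 4 / 8) (e ^ 2 / 400)
    rw [← hδ] at this
    linarith
  obtain ⟨X, hX⟩ : ∃ X : ℕ, ∀ p ∈ P, p ≤ X := ⟨P.sup id, fun p hp => le_sup (f := id) hp⟩
  obtain ⟨p₀, hp₀⟩ : P.Nonempty := by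
    rw [nonempty_iff_ne_empty]
    intro h
    rw [hL, h, sum_empty] at hLpos
    exact lt_irrefl _ hLpos
  have hX1 : 1 ≤ X := (hP p₀ hp₀).one_le.trans (hX p₀ hp₀)
  have hX0 : (0 : ℝ) < X := by exact_mod_cast hX1
  -- the precision
  set τ : ℝ := min (1 / (3 * (X : ℝ) ^ (4 * t))) (min (ρ / 2) (ρ₀ / 2) / (X : ℝ) ^ t) with hτ
  have hτ0 : 0 < τ := lt_min (by positivity) (by
    have : 0 < min (ρ / 2) (ρ₀ / 2) := lt_min (by positivity) (by positivity)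
    positivity)
  have hτX : 2 * τ * (X : ℝ) ^ (4 * t) < 1 := by
    have h1 : τ ≤ 1 / (3 * (X : ℝ) ^ (4 * t)) := min_le_left _ _
    have h2 : 2 * τ * (X : ℝ) ^ (4 * t) ≤ 2 * (1 / (3 * (X : ℝ) ^ (4 * t))) * (X : ℝ) ^ (4 * t) := by gcongr
    have h3 : 2 * (1 / (3 * (X : ℝ) ^ (4 * t))) * (X : ℝ) ^ (4 * t) = 2 / 3 := by field_simp
    rw [h3] at h2
    linarith
  have hτρ : (X : ℝ) ^ t * τ ≤ min (ρ / 2) (ρ₀ / 2) := by
    have h1 : τ ≤ min (ρ / 2) (ρ₀ / 2) / (X : ℝ) ^ t := min_le_right _ _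
    rw [le_div_iff₀ (by positivity)] at h1
    linarith
  set lam : ℝ := e ^ 2 / (1024 * X) with hlam
  have hlam0 : 0 < lam := by positivity
  obtain ⟨δ₁, hδ₁, H₁, hpair⟩ := hB X lam τ hlam0 hτ0
  set δ₂ : ℝ := min δ₁ (ρ / (2 * (B + 1))) with hδ₂
  have hδ₂0 : 0 < δ₂ := lt_min hδ₁ (by positivity)
  refine ⟨δ₂, hδ₂0, H₁ + ⌈1 / lam⌉₊ + 1, fun H hH => ?_⟩
  have hH1 : 1 ≤ H := by omega
  have hHlam : 1 ≤ lam * H := by
    have h1 : 1 / lam ≤ H := by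
      refine (Nat.le_ceil _).trans ?_
      have : ⌈1 / lam⌉₊ ≤ H := by omega
      exact_mod_cast this
    rw [div_le_iff₀ hlam0] at h1
    linarith
  set J : ℕ := ⌊e ^ 2 * H / (512 * X)⌋₊ with hJ
  have hJ1 : (J : ℝ) ≤ e ^ 2 * H / (512 * X) := Nat.floor_le (by positivity)
  have hJ2 : e ^ 2 * H / (512 * X) < J + 1 := Nat.lt_floor_add_one _
  have hJ3 : e ^ 2 * H / (512 * X) = 2 * (lam * H) := by
    rw [hlam]
    field_simp
    norm_num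
  have hJlam : lam * H ≤ J := by linarith
  have hJpos : (0 : ℝ) < J := by linarith
  have hJ1' : 1 ≤ J := by exact_mod_cast hJpos
  have hJH : 512 * ((X : ℝ) * J) ≤ e ^ 2 * H := by
    rw [le_div_iff₀ (by positivity)] at hJ1
    linarith
  -- the relation
  set S : Set Om := {v | A δ₂ H v ∧ (∃ x ∈ C, |fr v - x| ≤ δ₂) ∧ (∀ r : ℕ, 1 ≤ r → r < (B + 1) * r₀ → ∀ b : ℤ, ρ₀ ≤ |fr v - b / r|)} with hS
  set R : ℕ → ℕ → Om → Om → Prop := fun p q v v' => ∃ k ∈ U, dZ (k * ((p : ℝ) ^ t * fr v - (q : ℝ) ^ t * fr v')) ≤ τ with hR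
  obtain ⟨N₀, hN₀⟩ := one_n f hf e he0 he1 P hP hL400 X hX J H hJ1' hH1 hJH R S (by
    intro p hp q hq v hv v' hv' s s' hs hs' hbig
    obtain ⟨k, hk1, hk2, hd⟩ := hpair H (by omega) p q J (hP p hp).one_le (hX p hp) (hP q hq).one_le (hX q hq) hJlam v v' s s'
      (hmono δ₂ δ₁ (min_le_left _ _) H v hv.1) (hmono δ₂ δ₁ (min_le_left _ _) H v' hv'.1) hs hs' hbig
    exact ⟨k, mem_Icc.mpr ⟨hk1, by omega⟩, hd⟩)
  refine ⟨N₀ + 1, fun N hN o ho => ?_⟩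
  by_contra hcon
  push Not at hcon
  have hlog : 0 ≤ Real.log N := Real.log_natCast_nonneg N
  obtain ⟨i, hi⟩ := hN₀ N (by omega) o ho (by
    refine le_trans ?_ hcon.le
    refine mul_le_mul_of_nonneg_right (mul_le_mul_of_nonneg_right heε (by positivity)) hlog)
  -- pigeonhole
  obtain ⟨k, hkU, hk⟩ := kpig P (wt P) (fun p _ => wt_nonneg P p) U hUne
    (fun p q k => p ≠ q ∧ dZ (k * ((p : ℝ) ^ t * fr (o (i q)) - (q : ℝ) ^ t * fr (o (i p)))) ≤ τ) (e ^ 2 / 32) (by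
      refine hi.trans (sum_le_sum fun p _ => sum_le_sum fun q _ => mul_le_mul_of_nonneg_left ?_ (mul_nonneg (wt_nonneg _ _) (wt_nonneg _ _)))
      by_cases h1 : p ≠ q ∧ R p q (o (i q)) (o (i p))
      · obtain ⟨hpq, k, hkU, hd⟩ := h1
        rw [if_pos ⟨hpq, k, hkU, hd⟩, if_pos ⟨k, hkU, hpq, hd⟩]
      · rw [if_neg h1]
        split_ifs <;> norm_num)
  rw [← hκ₂] at hk
  have hk1 : 1 ≤ k := hU1 k hkU
  have hkB : k ≤ B + 1 := (mem_Icc.mp hkU).2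
  have hk0 : (1 : ℝ) ≤ k := by exact_mod_cast hk1
  have hkB' : (k : ℝ) ≤ B + 1 := by exact_mod_cast hkB
  refine contradiction_of_pairs t ht P hP X hX
    (fun p γ => (∃ x ∈ C', |(p : ℝ) ^ t * γ - x| ≤ ρ) ∧ (∀ r : ℕ, 1 ≤ r → r < r₀ → ∀ b : ℤ, ρ₀ / 2 ≤ |(p : ℝ) ^ t * γ - b / r|))
    κ₂ τ δ hκ₂0 hτ0.le hτX hδL (min_le_left _ _) (fun γ => ?_)
    (fun q => k * fr (o (i q))) (fun p => k * fr (o (i p))) (fun q _ γ h2 => ?_) ?_
  · refine le_trans (le_of_eq ?_) ((hsieve γ).trans ?_)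
    · refine sum_congr rfl fun p _ => ?_
      by_cases h1 : (∃ x ∈ C', |(p : ℝ) ^ t * γ - x| ≤ ρ) ∧ (∀ r : ℕ, 1 ≤ r → r < r₀ → ∀ b : ℤ, ρ₀ / 2 ≤ |(p : ℝ) ^ t * γ - b / r|)
      · rw [if_pos h1, if_pos h1]
      · rw [if_neg h1, if_neg h1]
    · refine mul_le_mul_of_nonneg_right ?_ hLpos.le
      rw [mul_zero, zero_add]
      have := min_le_left (κ₂ ^ 4 / 8) (e ^ 2 / 400)
      rw [← hδ] at this
      have h4 : 0 < κ₂ ^ 4 := by positivity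
      linarith
  · obtain ⟨z, hz⟩ := exists_int ((q : ℝ) ^ t * γ - k * fr (o (i q)))
    obtain ⟨-, ⟨x, hx, hxd⟩, hfar⟩ := ho (i q)
    have h3 : |(q : ℝ) ^ t * γ - k * fr (o (i q)) - z| ≤ min (ρ / 2) (ρ₀ / 2) := by
      rw [hz]
      exact h2.trans hτρ
    constructor
    · refine ⟨k * x + z, hmemC k hkU x hx z, ?_⟩
      have h4 : (q : ℝ) ^ t * γ - (k * x + z) = ((q : ℝ) ^ t * γ - k * fr (o (i q)) - z) + k * (fr (o (i q)) - x) := by ring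
      rw [h4]
      refine (abs_add_le _ _).trans ?_
      rw [abs_mul, abs_of_nonneg (by linarith : (0 : ℝ) ≤ k)]
      have h5 : (k : ℝ) * |fr (o (i q)) - x| ≤ (B + 1) * (ρ / (2 * (B + 1))) := by
        refine mul_le_mul hkB' (hxd.trans (min_le_right _ _)) (abs_nonneg _) (by positivity)
      have h6 : ((B : ℝ) + 1) * (ρ / (2 * (B + 1))) = ρ / 2 := by field_simp
      have h7 := h3.trans (min_le_left _ _)
      linarith
    · intro r hr1 hr2 b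
      have hr0 : (0 : ℝ) < r := by exact_mod_cast hr1
      have h4 := hfar (k * r) (Nat.mul_pos hk1 hr1) (by
        calc k * r ≤ (B + 1) * r := Nat.mul_le_mul_right _ hkB
          _ < (B + 1) * r₀ := Nat.mul_lt_mul_of_pos_left hr2 (by omega)) (b - z * r)
      have h5 : (k : ℝ) * |fr (o (i q)) - ((b - z * r : ℤ) : ℝ) / ((k * r : ℕ) : ℝ)| = |k * fr (o (i q)) + z - b / r| := by
        rw [← abs_of_nonneg (by linarith : (0 : ℝ) ≤ k), ← abs_mul, abs_of_nonneg (by linarith : (0 : ℝ) ≤ k)]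
        congr 1
        push_cast
        field_simp
        ring
      have h6 : ρ₀ ≤ |k * fr (o (i q)) + z - b / r| := by
        rw [← h5]
        have h7 : 1 * |fr (o (i q)) - ((b - z * r : ℤ) : ℝ) / ((k * r : ℕ) : ℝ)| ≤ (k : ℝ) * |fr (o (i q)) - ((b - z * r : ℤ) : ℝ) / ((k * r : ℕ) : ℝ)| :=
          mul_le_mul_of_nonneg_right hk0 (abs_nonneg _)
        linarith
      have h7 : |k * fr (o (i q)) + z - b / r| ≤ |(q : ℝ) ^ t * γ - b / r| + |(q : ℝ) ^ t * γ - k * fr (o (i q)) - z| := by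
        have h8 : k * fr (o (i q)) + z - b / r = ((q : ℝ) ^ t * γ - b / r) - ((q : ℝ) ^ t * γ - k * fr (o (i q)) - z) := by ring
        rw [h8]
        exact abs_sub _ _
      have h8 := h3.trans (min_le_right _ _)
      linarith
  · refine hk.trans (sum_le_sum fun p _ => sum_le_sum fun q _ => mul_le_mul_of_nonneg_left ?_ (mul_nonneg (wt_nonneg _ _) (wt_nonneg _ _)))
    by_cases h1 : p ≠ q ∧ dZ (k * ((p : ℝ) ^ t * fr (o (i q)) - (q : ℝ) ^ t * fr (o (i p)))) ≤ τ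
    · rw [if_pos h1]
      have h2 : p ≠ q ∧ dZ ((p : ℝ) ^ t * (k * fr (o (i q))) - (q : ℝ) ^ t * (k * fr (o (i p)))) ≤ τ := by
        refine ⟨h1.1, ?_⟩
        have h3 : (p : ℝ) ^ t * (k * fr (o (i q))) - (q : ℝ) ^ t * (k * fr (o (i p))) = k * ((p : ℝ) ^ t * fr (o (i q)) - (q : ℝ) ^ t * fr (o (i p))) := by ring
        rw [h3]
        exact h1.2
      rw [if_pos h2]
    · rw [if_neg h1]
      split_ifs <;> norm_num

end Pool.Agent.Lib.MP_3e612f_nt.NF
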