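import Pool.Agent.Lib.MP_3e612f_nt.NF.K.Loc

/-! One point with many correlated pairs (paper, Part K: K-Main). -/

set_option autoImplicit false

namespace Pool.Agent.Lib.MP_3e612f_nt.NF

open Finset
open Pool.Agent.Lib.MP_3e612f_nt.MR (mu ex)

open scoped Classical in
/-- If the windows correlate with `μ` then at some point many pairs of primes are related. -/
theorem one_n {Om : Type} (f : Om → ℕ → ℂ) (hf : ∀ o n, ‖f o n‖ ≤ 1) (e : ℝ) (he : 0 < e) (he1 : e ≤ 1) (P : Finset ℕ) (hP : ∀ p ∈ P, p.Prime)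
    (hL : 400 / e ^ 2 ≤ ∑ p ∈ P, 1 / (p : ℝ)) (X : ℕ) (hX : ∀ p ∈ P, p ≤ X) (J H : ℕ) (hJ : 1 ≤ J) (hH : 1 ≤ H) (hJH : 512 * (X * J) ≤ e ^ 2 * H)
    (R : ℕ → ℕ → Om → Om → Prop) (S : Set Om)
    (hR : ∀ p ∈ P, ∀ q ∈ P, ∀ u ∈ S, ∀ v ∈ S, ∀ s s' : ℕ, s + p * J ≤ H → s' + q * J ≤ H → e ^ 2 / 64 * J ≤ ‖∑ j ∈ range J, f u (s + p * j) * (starRingEnd ℂ) (f v (s' + q * j))‖ → R p q u v) :
    ∃ N₀ : ℕ, ∀ N : ℕ, N₀ ≤ N → ∀ o : ℕ → Om, (∀ n, o n ∈ S) →
      2 * e * H * Real.log N ≤ ∑ n ∈ Icc 1 N, 1 / (n : ℝ) * ‖∑ h ∈ Icc 1 H, (mu (n + h) : ℂ) * f (o n) h‖ →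
      ∃ i : ℕ → ℕ, e ^ 2 / 32 ≤ ∑ p ∈ P, ∑ q ∈ P, wt P p * wt P q * (if p ≠ q ∧ R p q (o (i q)) (o (i p)) then 1 else 0) := by
  set L : ℝ := ∑ p ∈ P, 1 / (p : ℝ) with hLdef
  have hLpos : 0 < L := lt_of_lt_of_le (by positivity) hL
  obtain ⟨p₀, hp₀⟩ : P.Nonempty := by
    rw [nonempty_iff_ne_empty]
    intro h
    rw [hLdef, h, sum_empty] at hLpos
    exact lt_irrefl _ hLpos
  have hX1 : 1 ≤ X := (hP p₀ hp₀).one_le.trans (hX p₀ hp₀)
  have hX0 : (0 : ℝ) < X := by exact_mod_cast hX1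
  have hlogX : 0 ≤ Real.log X := Real.log_natCast_nonneg X
  obtain ⟨N₁, hN₁⟩ := kwin (2 * e) (by positivity) H hH
  obtain ⟨N₂, hN₂⟩ := kat e he he1 P hP hL
  set C : ℝ := 3 * e ^ 2 / 128 + 2 * H + 2 * J + 1 + e ^ 2 / 32 * (2 + 2 * Real.log X) with hC
  refine ⟨N₁ + N₂ + ⌈Real.exp (128 * C / (9 * e ^ 2) + 1)⌉₊ + 1, fun N hN o ho hbig => ?_⟩
  have hNpos : 1 ≤ N := by omega
  have hN0 : (0 : ℝ) < N := by exact_mod_cast hNpos
  set x : ℝ := Real.log N with hx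
  have hx1 : 128 * C / (9 * e ^ 2) + 1 ≤ x := by
    rw [hx, Real.le_log_iff_exp_le hN0]
    refine (Nat.le_ceil _).trans ?_
    have : ⌈Real.exp (128 * C / (9 * e ^ 2) + 1)⌉₊ ≤ N := by omega
    exact_mod_cast this
  have hxC : C < 9 / 128 * e ^ 2 * x := by
    have h1 : 128 * C / (9 * e ^ 2) < x := by linarith
    rw [div_lt_iff₀ (by positivity)] at h1
    linarith
  obtain ⟨r, hr1, hrH, θ, hθ, h1⟩ := hN₁ N (by omega) (fun n h => f (o n) h) (fun n h => hf _ _) hbig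
  set g : ℕ → ℕ → ℂ := fun n h => f (o n) h with hg
  have hg1 : ∀ n h, ‖g n h‖ ≤ 1 := fun n h => hf _ _
  have h2 : e * Real.log N ≤ ‖∑ m ∈ Icc 1 N, (mu m : ℂ) * Psi r H θ g m / m‖ := by
    have h3 : 2 * e / 2 * Real.log N = e * Real.log N := by ring
    rw [h3] at h1
    exact h1
  have h3 := hN₂ N (by omega) (Psi r H θ g) (norm_Psi_le r H θ g hθ hg1) h2
  -- one pair
  set κ : ℝ := e ^ 2 / 64 with hκ
  have hκ0 : 0 ≤ κ := by positivity
  have hH0 : (0 : ℝ) < H := by exact_mod_cast hH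
  have hJ0 : (0 : ℝ) < J := by exact_mod_cast hJ
  have hfrac : ∀ p ∈ P, 2 * (p : ℝ) * J / H ≤ e ^ 2 / 256 := by
    intro p hp
    rw [div_le_iff₀ hH0]
    have : (p : ℝ) ≤ X := by exact_mod_cast hX p hp
    have : 2 * (p : ℝ) * J ≤ 2 * X * J := by gcongr
    linarith
  have hpJ : ∀ p ∈ P, 2 * (p * J) ≤ H := by
    intro p hp
    have h4 := hfrac p hp
    rw [div_le_iff₀ hH0] at h4
    have h5 : e ^ 2 ≤ 1 := pow_le_one₀ he.le he1
    have h6 : 2 * ((p : ℝ) * J) ≤ H := by nlinarith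
    exact_mod_cast h6
  set G : ℕ → ℕ → ℕ → Prop := fun p q k => R p q (o (st r H (p * k))) (o (st r H (q * k))) ∧ Good r H p J k ∧ Good r H q J k with hG
  set D : ℝ := κ * (1 + x) + 2 * (e ^ 2 / 256 * (1 + x) + H) + 2 * J with hD
  have hx0 : 0 ≤ x := by rw [hx]; exact Real.log_natCast_nonneg N
  have hD0 : 0 ≤ D := by positivity
  have h4 : ∀ p ∈ P, ∀ q ∈ P, ‖∑ k ∈ Icc 1 N, Psi r H θ g (p * k) * (starRingEnd ℂ) (Psi r H θ g (q * k)) / k‖ ≤
      D + ∑ k ∈ Icc 1 N, 1 / (k : ℝ) * (if G p q k then 1 else 0) := by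
    intro p hp q hq
    have h5 := loc_pair r H p q J N hH hrH hJ (hP p hp).one_le (hP q hq).one_le (hpJ p hp) (hpJ q hq) θ g hθ hg1 κ hκ0
      (fun k => R p q (o (st r H (p * k))) (o (st r H (q * k)))) (fun k hk1 hk2 hk => hR p hp q hq _ (ho _) _ (ho _) _ _ (hk1.le hH) (hk2.le hH) hk)
    refine h5.trans ?_
    have h6 := mul_le_mul_of_nonneg_right (hfrac p hp) (show 0 ≤ 1 + x by linarith)
    have h7 := mul_le_mul_of_nonneg_right (hfrac q hq) (show 0 ≤ 1 + x by linarith)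
    rw [hD, ← hx]
    linarith
  -- dilation
  set N' : ℕ := X ^ 2 * (N + 1) with hN'
  have h5 : ∀ p ∈ P, ∀ q ∈ P, ∑ k ∈ Icc 1 N, 1 / (k : ℝ) * (if G p q k then 1 else 0) ≤
      ∑ n ∈ Icc 1 N', 1 / (n : ℝ) * (if G p q (n / (q * p)) then 1 else 0) + 1 := by
    intro p hp q hq
    refine trans_le (fun k => if G p q k then 1 else 0) (fun k => by split_ifs <;> norm_num) (fun k => by split_ifs <;> norm_num)
      (q * p) (Nat.mul_pos (hP q hq).pos (hP p hp).pos) N N' ?_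
    rw [hN', sq]
    exact Nat.mul_le_mul_right _ (Nat.mul_le_mul (hX q hq) (hX p hp))
  have h6 : e ^ 2 / 8 * x ≤ D + 1 + ∑ n ∈ Icc 1 N', 1 / (n : ℝ) * ∑ p ∈ P, ∑ q ∈ P, wt P p * wt P q * (if p ≠ q ∧ G p q (n / (q * p)) then 1 else 0) := by
    refine h3.trans ?_
    have h7 : ∀ p ∈ P, ∀ q ∈ P, wt P p * wt P q * (if p ≠ q then ‖∑ k ∈ Icc 1 N, Psi r H θ g (p * k) * (starRingEnd ℂ) (Psi r H θ g (q * k)) / k‖ else 0) ≤
        wt P p * wt P q * (D + 1) + ∑ n ∈ Icc 1 N', 1 / (n : ℝ) * (wt P p * wt P q * (if p ≠ q ∧ G p q (n / (q * p)) then 1 else 0)) := by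
      intro p hp q hq
      have hw0 : 0 ≤ wt P p * wt P q := mul_nonneg (wt_nonneg _ _) (wt_nonneg _ _)
      by_cases hpq : p = q
      · rw [if_neg (by simp [hpq]), mul_zero]
        refine add_nonneg (mul_nonneg hw0 (by linarith)) (sum_nonneg fun n _ => mul_nonneg (by positivity) (mul_nonneg hw0 ?_))
        split_ifs <;> norm_num
      · rw [if_pos hpq]
        have h8 : ∑ n ∈ Icc 1 N', 1 / (n : ℝ) * (wt P p * wt P q * (if p ≠ q ∧ G p q (n / (q * p)) then 1 else 0))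
            = wt P p * wt P q * ∑ n ∈ Icc 1 N', 1 / (n : ℝ) * (if G p q (n / (q * p)) then 1 else 0) := by
          rw [mul_sum]
          refine sum_congr rfl fun n _ => ?_
          have h9 : (if p ≠ q ∧ G p q (n / (q * p)) then (1 : ℝ) else 0) = (if G p q (n / (q * p)) then 1 else 0) := by
            by_cases h10 : G p q (n / (q * p))
            · rw [if_pos h10, if_pos ⟨hpq, h10⟩]
            · rw [if_neg h10, if_neg (fun h => h10 h.2)]
          rw [h9]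
          ring
        rw [h8, ← mul_add]
        refine mul_le_mul_of_nonneg_left ?_ hw0
        have := h4 p hp q hq
        have := h5 p hp q hq
        linarith
    refine (sum_le_sum fun p hp => sum_le_sum fun q hq => h7 p hp q hq).trans (le_of_eq ?_)
    simp only [sum_add_distrib]
    congr 1
    · have h8 : ∀ p ∈ P, ∑ q ∈ P, wt P p * wt P q * (D + 1) = wt P p * (D + 1) := by
        intro p _
        rw [← sum_mul, ← mul_sum, sum_wt P hLpos, mul_one]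
      rw [sum_congr rfl h8, ← sum_mul, sum_wt P hLpos, one_mul]
    · have h8 : ∀ p ∈ P, ∑ q ∈ P, ∑ n ∈ Icc 1 N', 1 / (n : ℝ) * (wt P p * wt P q * (if p ≠ q ∧ G p q (n / (q * p)) then 1 else 0))
          = ∑ n ∈ Icc 1 N', ∑ q ∈ P, 1 / (n : ℝ) * (wt P p * wt P q * (if p ≠ q ∧ G p q (n / (q * p)) then 1 else 0)) := fun p _ => sum_comm
      rw [sum_congr rfl h8, sum_comm]
      refine sum_congr rfl fun n _ => ?_
      rw [mul_sum]
      refine sum_congr rfl fun p _ => ?_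
      rw [mul_sum]
  -- a point
  obtain ⟨n, -, hn⟩ : ∃ n ∈ Icc 1 N', e ^ 2 / 32 ≤ ∑ p ∈ P, ∑ q ∈ P, wt P p * wt P q * (if p ≠ q ∧ G p q (n / (q * p)) then 1 else 0) := by
    by_contra hcon
    push Not at hcon
    have h7 : ∑ n ∈ Icc 1 N', 1 / (n : ℝ) * ∑ p ∈ P, ∑ q ∈ P, wt P p * wt P q * (if p ≠ q ∧ G p q (n / (q * p)) then 1 else 0) ≤
        ∑ n ∈ Icc 1 N', e ^ 2 / 32 * (1 / (n : ℝ)) := by
      refine sum_le_sum fun n hn => ?_
      rw [mul_comm (e ^ 2 / 32)]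
      exact mul_le_mul_of_nonneg_left (hcon n hn).le (by positivity)
    rw [← mul_sum] at h7
    have h8 := harm_le N'
    have h9 : Real.log N' ≤ 2 * Real.log X + 1 + x := by
      have h10 : (N' : ℝ) = (X : ℝ) ^ 2 * ((N : ℝ) + 1) := by
        rw [hN']
        push_cast
        ring
      rw [h10, Real.log_mul (by positivity) (by positivity), Real.log_pow]
      have h11 : Real.log ((N : ℝ) + 1) ≤ 1 + x := by
        have h12 : ((N : ℝ) + 1) ≤ 2 * N := by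
          have : (1 : ℝ) ≤ N := by exact_mod_cast hNpos
          linarith
        have h13 := Real.log_le_log (by positivity) h12
        rw [Real.log_mul (by norm_num) hN0.ne', ← hx] at h13
        have h14 : Real.log 2 ≤ 1 := by
          have := Real.log_two_lt_d9
          linarith
        linarith
      push_cast
      linarith
    have h10 := mul_le_mul_of_nonneg_left (h8.trans (add_le_add (le_refl (1 : ℝ)) h9)) (show (0 : ℝ) ≤ e ^ 2 / 32 by positivity)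
    have h11 : e ^ 2 / 32 * (1 + (2 * Real.log X + 1 + x)) = e ^ 2 / 32 * (2 + 2 * Real.log X) + e ^ 2 / 32 * x := by ring
    rw [hD, hκ] at h6
    rw [hC] at hxC
    have h12 : e ^ 2 / 64 * (1 + x) + 2 * (e ^ 2 / 256 * (1 + x) + H) + 2 * J = 3 * e ^ 2 / 128 + 3 * e ^ 2 / 128 * x + 2 * H + 2 * J := by ring
    rw [h12] at h6
    have h13 : e ^ 2 / 8 * x = 9 / 128 * e ^ 2 * x + 3 * e ^ 2 / 128 * x + e ^ 2 / 32 * x := by ring
    linarith
  refine ⟨fun q => st r H (n / q), hn.trans ?_⟩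
  refine sum_le_sum fun p hp => sum_le_sum fun q hq => ?_
  refine mul_le_mul_of_nonneg_left ?_ (mul_nonneg (wt_nonneg _ _) (wt_nonneg _ _))
  by_cases h7 : p ≠ q ∧ G p q (n / (q * p))
  · obtain ⟨hpq, hR1, hgp, hgq⟩ := h7
    rw [if_pos ⟨hpq, hR1, hgp, hgq⟩]
    have h8 := hgp.st_eq (hP p hp).one_le hJ
    have h9 : st r H (q * (n / (q * p))) = st r H (n / p) := by
      rw [mul_comm q p] at hgq ⊢
      exact hgq.st_eq (hP q hq).one_le hJ
    rw [h8, h9] at hR1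
    rw [if_pos ⟨hpq, hR1⟩]
  · rw [if_neg h7]
    split_ifs <;> norm_num

end Pool.Agent.Lib.MP_3e612f_nt.NF
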