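import Pool.Agent.Lib.MP_3e612f_nt.NF.Base

/-! Sliding windows, dilation of logarithmic averages, bad points (paper, Part K: K-Slide, K-Trans, K-Bad). -/

set_option autoImplicit false

namespace Pool.Agent.Lib.MP_3e612f_nt.NF

open Finset
open Pool.Agent.Lib.MP_3e612f_nt.MR (mu ex)

/-- harmonic sums -/
theorem harm_le (N : ℕ) : ∑ k ∈ Icc 1 N, 1 / (k : ℝ) ≤ 1 + Real.log N := by
  have h := harmonic_le_one_add_log N
  rw [harmonic_eq_sum_Icc] at h
  push_cast at h
  simpa [one_div] using h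

theorem le_harm (N : ℕ) (hN : 1 ≤ N) : Real.log N ≤ ∑ k ∈ Icc 1 N, 1 / (k : ℝ) := by
  have h := log_add_one_le_harmonic N
  rw [harmonic_eq_sum_Icc] at h
  push_cast at h
  have h1 : Real.log N ≤ Real.log ((N : ℝ) + 1) := Real.log_le_log (by exact_mod_cast hN) (by linarith)
  simpa [one_div] using h1.trans h

/-- a single shift -/
theorem slide_one (a : ℕ → ℂ) (ha : ∀ n, ‖a n‖ ≤ 1) (j N : ℕ) :
    ‖∑ k ∈ Icc 1 N, a k / k - ∑ k ∈ Icc 1 N, a (k + j) / k‖ ≤ 2 * j := by
  induction j with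
  | zero => simp
  | succ j ih =>
    have h1 : ‖∑ k ∈ Icc 1 N, a (k + j) / k - ∑ k ∈ Icc 1 N, a (k + (j + 1)) / k‖ ≤ 2 := by
      rcases Nat.eq_zero_or_pos N with h0 | h0
      · subst h0
        simp
      set b : ℕ → ℂ := fun k => a (k + j) with hb
      have hb1 : ∀ n, ‖b n‖ ≤ 1 := fun n => ha _
      have h2 : ∀ k, a (k + (j + 1)) = b (k + 1) := fun k => by
        rw [hb]
        dsimp only
        congr 1
        ring
      simp only [h2]
      -- telescoping
      have h3 : ∀ N : ℕ, ∑ k ∈ Icc 1 N, b k / k - ∑ k ∈ Icc 1 N, b (k + 1) / k = (if N = 0 then 0 else b 1 - b (N + 1) / N)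
          - ∑ k ∈ Icc 2 N, b k * ((1 / ((k : ℂ) - 1)) - 1 / k) := by
        intro N
        induction N with
        | zero => simp
        | succ n ihn =>
          rw [Finset.sum_Icc_succ_top (by omega), Finset.sum_Icc_succ_top (by omega)]
          rcases Nat.eq_zero_or_pos n with h | h
          · subst h
            simp
          · rw [Finset.sum_Icc_succ_top (by omega : 2 ≤ n + 1), if_neg (by omega)]
            rw [if_neg (by omega)] at ihn
            have h4 : ∑ k ∈ Icc 1 n, b k / k = ∑ k ∈ Icc 1 n, b (k + 1) / k + (b 1 - b (n + 1) / n) - ∑ k ∈ Icc 2 n, b k * ((1 / ((k : ℂ) - 1)) - 1 / k) := by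
              linear_combination ihn
            rw [h4]
            have hn0 : (n : ℂ) ≠ 0 := by exact_mod_cast h.ne'
            have hn1 : (n : ℂ) + 1 ≠ 0 := by exact_mod_cast n.succ_ne_zero
            have h9 : ((n + 1 : ℕ) : ℂ) - 1 = n := by
              push_cast
              ring
            rw [h9]
            generalize ∑ k ∈ Icc 2 n, b k * ((1 / ((k : ℂ) - 1)) - 1 / k) = S
            generalize ∑ k ∈ Icc 1 n, b (k + 1) / (k : ℂ) = S'
            push_cast
            field_simp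
            ring
      rw [h3 N, if_neg h0.ne']
      have h5 : ∀ N : ℕ, 1 ≤ N → ‖∑ k ∈ Icc 2 N, b k * ((1 / ((k : ℂ) - 1)) - 1 / k)‖ ≤ 1 - 1 / N := by
        intro N hN
        induction N, hN using Nat.le_induction with
        | base => simp
        | succ n hn ihn =>
          rw [Finset.sum_Icc_succ_top (by omega)]
          refine (norm_add_le _ _).trans ?_
          have hn0 : (0 : ℝ) < n := by exact_mod_cast hn
          have h6 : ‖b (n + 1) * ((1 / (((n + 1 : ℕ) : ℂ) - 1)) - 1 / ((n + 1 : ℕ) : ℂ))‖ ≤ 1 / n - 1 / ((n : ℝ) + 1) := by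
            rw [norm_mul]
            have h7 : (1 / (((n + 1 : ℕ) : ℂ) - 1)) - 1 / ((n + 1 : ℕ) : ℂ) = ((1 / n - 1 / ((n : ℝ) + 1) : ℝ) : ℂ) := by
              push_cast
              ring
            have h8 : (0 : ℝ) ≤ 1 / n - 1 / ((n : ℝ) + 1) := by
              rw [sub_nonneg]
              gcongr
              linarith
            rw [h7, Complex.norm_real, Real.norm_eq_abs, abs_of_nonneg h8]
            calc ‖b (n + 1)‖ * (1 / n - 1 / ((n : ℝ) + 1)) ≤ 1 * (1 / n - 1 / ((n : ℝ) + 1)) := mul_le_mul_of_nonneg_right (hb1 _) h8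
              _ = _ := one_mul _
          push_cast
          push_cast at h6
          linarith
      have h6 := h5 N h0
      have hN0 : (0 : ℝ) < N := by exact_mod_cast h0
      have h7 : ‖b 1 - b (N + 1) / N‖ ≤ 1 + 1 / N := by
        refine (norm_sub_le _ _).trans ?_
        rw [norm_div, Complex.norm_natCast]
        have := hb1 1
        have h8 : ‖b (N + 1)‖ / N ≤ 1 / N := by
          gcongr
          exact hb1 _
        linarith
      refine (norm_sub_le _ _).trans ?_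
      linarith
    have h2 : ∑ k ∈ Icc 1 N, a k / k - ∑ k ∈ Icc 1 N, a (k + (j + 1)) / k
        = (∑ k ∈ Icc 1 N, a k / k - ∑ k ∈ Icc 1 N, a (k + j) / k) + (∑ k ∈ Icc 1 N, a (k + j) / k - ∑ k ∈ Icc 1 N, a (k + (j + 1)) / k) := by ring
    rw [h2]
    refine (norm_add_le _ _).trans ?_
    push_cast
    linarith

/-- K-Slide. -/
theorem slide (a : ℕ → ℂ) (ha : ∀ n, ‖a n‖ ≤ 1) (J : ℕ) (hJ : 1 ≤ J) (N : ℕ) :
    ‖∑ k ∈ Icc 1 N, a k / k‖ ≤ ∑ k ∈ Icc 1 N, 1 / (k : ℝ) * (‖∑ j ∈ range J, a (k + j)‖ / J) + 2 * J := by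
  have hJ0 : (0 : ℝ) < J := by exact_mod_cast hJ
  have h1 : (J : ℂ) * ∑ k ∈ Icc 1 N, a k / k = ∑ k ∈ Icc 1 N, (∑ j ∈ range J, a (k + j)) / k
      + ∑ j ∈ range J, (∑ k ∈ Icc 1 N, a k / k - ∑ k ∈ Icc 1 N, a (k + j) / k) := by
    rw [sum_sub_distrib, sum_const, card_range, nsmul_eq_mul]
    have : ∑ k ∈ Icc 1 N, (∑ j ∈ range J, a (k + j)) / k = ∑ j ∈ range J, ∑ k ∈ Icc 1 N, a (k + j) / k := by
      rw [sum_comm]
      exact sum_congr rfl fun k _ => by rw [sum_div]
    rw [this]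
    ring
  have h2 : (J : ℝ) * ‖∑ k ∈ Icc 1 N, a k / k‖ ≤ ∑ k ∈ Icc 1 N, ‖∑ j ∈ range J, a (k + j)‖ / k + J * (2 * J) := by
    have h3 : (J : ℝ) * ‖∑ k ∈ Icc 1 N, a k / k‖ = ‖(J : ℂ) * ∑ k ∈ Icc 1 N, a k / k‖ := by
      rw [norm_mul, Complex.norm_natCast]
    rw [h3, h1]
    refine (norm_add_le _ _).trans (add_le_add ?_ ?_)
    · refine (norm_sum_le _ _).trans (le_of_eq ?_)
      exact sum_congr rfl fun k _ => by rw [norm_div, Complex.norm_natCast]
    · refine (norm_sum_le _ _).trans ?_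
      have h4 : ∀ j ∈ range J, ‖∑ k ∈ Icc 1 N, a k / k - ∑ k ∈ Icc 1 N, a (k + j) / k‖ ≤ 2 * J := by
        intro j hj
        rw [mem_range] at hj
        refine (slide_one a ha j N).trans ?_
        have : (j : ℝ) ≤ J := by exact_mod_cast hj.le
        linarith
      refine (sum_le_sum h4).trans (le_of_eq ?_)
      rw [sum_const, card_range, nsmul_eq_mul]
  have h3 : ∑ k ∈ Icc 1 N, 1 / (k : ℝ) * (‖∑ j ∈ range J, a (k + j)‖ / J) = (∑ k ∈ Icc 1 N, ‖∑ j ∈ range J, a (k + j)‖ / k) / J := by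
    rw [sum_div]
    exact sum_congr rfl fun k _ => by ring
  rw [h3, ← sub_le_iff_le_add, le_div_iff₀ hJ0]
  linarith

/-- K-Trans. -/
theorem trans_le (G : ℕ → ℝ) (hG : ∀ k, 0 ≤ G k) (hG1 : ∀ k, G k ≤ 1) (a : ℕ) (ha : 1 ≤ a) (N N' : ℕ) (h : a * (N + 1) ≤ N') :
    ∑ k ∈ Icc 1 N, 1 / (k : ℝ) * G k ≤ ∑ n ∈ Icc 1 N', 1 / (n : ℝ) * G (n / a) + 1 := by
  -- first for the range `n < a (N+1)`
  have key : ∀ N : ℕ, ∑ k ∈ Icc 1 N, 1 / (k : ℝ) * G k ≤ ∑ n ∈ Ico a (a * (N + 1)), 1 / (n : ℝ) * G (n / a) + (1 - 1 / ((N : ℝ) + 1)) := by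
    intro N
    induction N with
    | zero => simp
    | succ n ih =>
      rw [Finset.sum_Icc_succ_top (by omega)]
      have h1 : a ≤ a * (n + 1) := Nat.le_mul_of_pos_right _ (Nat.succ_pos _)
      have h2 : a * (n + 1) ≤ a * (n + 1 + 1) := Nat.mul_le_mul_left _ (by omega)
      rw [← Finset.sum_Ico_consecutive _ h1 h2]
      have h3 : G (n + 1) / ((n : ℝ) + 2) ≤ ∑ i ∈ Ico (a * (n + 1)) (a * (n + 1 + 1)), 1 / (i : ℝ) * G (i / a) := by
        have h4 : ∀ i ∈ Ico (a * (n + 1)) (a * (n + 1 + 1)), 1 / ((a : ℝ) * (n + 2)) * G (n + 1) ≤ 1 / (i : ℝ) * G (i / a) := by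
          intro i hi
          rw [mem_Ico] at hi
          have h5 : i / a = n + 1 := by
            rw [Nat.div_eq_iff (by omega)]
            constructor
            · rw [mul_comm] at hi
              omega
            · have := hi.2
              have h6 : a * (n + 1 + 1) = (n + 1) * a + a := by ring
              omega
          rw [h5]
          refine mul_le_mul_of_nonneg_right ?_ (hG _)
          have h6 : (0 : ℝ) < i := by
            have : 0 < i := lt_of_lt_of_le (Nat.mul_pos ha (Nat.succ_pos _)) hi.1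
            exact_mod_cast this
          refine one_div_le_one_div_of_le h6 ?_
          have h7 : i ≤ a * (n + 2) := hi.2.le
          exact_mod_cast h7
        refine le_trans (le_of_eq ?_) (sum_le_sum h4)
        rw [sum_const, Nat.card_Ico]
        have h5 : a * (n + 1 + 1) - a * (n + 1) = a := by
          rw [mul_add a (n + 1) 1, mul_one, Nat.add_sub_cancel_left]
        rw [h5, nsmul_eq_mul]
        have : (a : ℝ) ≠ 0 := by
          have : a ≠ 0 := by omega
          exact_mod_cast this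
        field_simp
      have h6 : 1 / ((n + 1 : ℕ) : ℝ) * G (n + 1) ≤ G (n + 1) / ((n : ℝ) + 2) + (1 / ((n : ℝ) + 1) - 1 / ((n : ℝ) + 2)) := by
        have h7 : (0 : ℝ) ≤ 1 / ((n : ℝ) + 1) - 1 / ((n : ℝ) + 2) := by
          rw [sub_nonneg]
          gcongr
          linarith
        have h8 : 1 / ((n + 1 : ℕ) : ℝ) * G (n + 1) - G (n + 1) / ((n : ℝ) + 2) = (1 / ((n : ℝ) + 1) - 1 / ((n : ℝ) + 2)) * G (n + 1) := by
          push_cast
          ring
        have h9 : (1 / ((n : ℝ) + 1) - 1 / ((n : ℝ) + 2)) * G (n + 1) ≤ (1 / ((n : ℝ) + 1) - 1 / ((n : ℝ) + 2)) * 1 := mul_le_mul_of_nonneg_left (hG1 _) h7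
        linarith
      have h10 : ((n + 1 : ℕ) : ℝ) + 1 = (n : ℝ) + 2 := by
        push_cast
        ring
      rw [h10]
      linarith
  refine (key N).trans ?_
  have h1 : ∑ n ∈ Ico a (a * (N + 1)), 1 / (n : ℝ) * G (n / a) ≤ ∑ n ∈ Icc 1 N', 1 / (n : ℝ) * G (n / a) := by
    refine sum_le_sum_of_subset_of_nonneg ?_ fun i _ _ => mul_nonneg (by positivity) (hG _)
    intro i hi
    rw [mem_Ico] at hi
    rw [mem_Icc]
    omega
  have h2 : (0 : ℝ) ≤ 1 / ((N : ℝ) + 1) := by positivity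
  linarith

end Pool.Agent.Lib.MP_3e612f_nt.NF
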