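import Pool.Agent.Lib.MP_3e612f_nt.NF.K.Slide

/-! Logarithmic averages over multiples and the inequality of Turan and Kubilius (paper, Part K: K-Kat). -/

set_option autoImplicit false

namespace Pool.Agent.Lib.MP_3e612f_nt.NF

open Finset
open Pool.Agent.Lib.MP_3e612f_nt.MR (mu ex)

/-- sums over the multiples of `d` -/
theorem sum_dvd_Icc {M : Type} [AddCommMonoid M] (f : ℕ → M) (d N : ℕ) (hd : 1 ≤ d) :
    ∑ m ∈ Icc 1 N, (if d ∣ m then f m else 0) = ∑ k ∈ Icc 1 (N / d), f (d * k) := by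
  rw [← sum_filter]
  symm
  refine sum_nbij' (fun k => d * k) (fun m => m / d) ?_ ?_ ?_ ?_ ?_
  · intro k hk
    rw [mem_Icc] at hk
    rw [mem_filter, mem_Icc]
    refine ⟨⟨Nat.mul_pos hd hk.1, ?_⟩, dvd_mul_right _ _⟩
    have := hk.2
    rw [Nat.le_div_iff_mul_le (by omega)] at this
    rwa [mul_comm]
  · intro m hm
    rw [mem_filter, mem_Icc] at hm
    obtain ⟨⟨h1, h2⟩, k, rfl⟩ := hm
    rw [mem_Icc, Nat.mul_div_cancel_left _ (by omega : 0 < d)]
    refine ⟨?_, ?_⟩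
    · by_contra h
      have : k = 0 := by omega
      subst this
      simp at h1
    · rw [Nat.le_div_iff_mul_le (by omega), mul_comm]
      exact h2
  · intro k _
    exact Nat.mul_div_cancel_left _ (by omega : 0 < d)
  · intro m hm
    rw [mem_filter] at hm
    exact Nat.mul_div_cancel' hm.2
  · intro k _
    rfl

/-- a logarithmic sum changes little when the range is divided by `d` -/
theorem norm_tail_le (b : ℕ → ℂ) (hb : ∀ n, ‖b n‖ ≤ 1) (d N : ℕ) (hd : 1 ≤ d) :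
    ‖∑ k ∈ Icc 1 N, b k / k - ∑ k ∈ Icc 1 (N / d), b k / k‖ ≤ d := by
  rcases Nat.eq_zero_or_pos N with h0 | h0
  · subst h0
    simp
  have hN0 : (0 : ℝ) < N := by exact_mod_cast h0
  have h1 : ∑ k ∈ Icc 1 (N / d), b k / (k : ℂ) = ∑ k ∈ Icc 1 N, (if k ≤ N / d then b k / (k : ℂ) else 0) := by
    rw [← sum_filter]
    congr 1
    ext k
    rw [mem_filter, mem_Icc, mem_Icc]
    have := Nat.div_le_self N d
    constructor
    · intro h
      exact ⟨⟨h.1, by omega⟩, h.2⟩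
    · intro h
      exact ⟨h.1.1, h.2⟩
  rw [h1, ← sum_sub_distrib]
  refine (norm_sum_le _ _).trans ?_
  have h2 : ∀ k ∈ Icc 1 N, ‖b k / (k : ℂ) - (if k ≤ N / d then b k / (k : ℂ) else 0)‖ ≤ d / N := by
    intro k hk
    rw [mem_Icc] at hk
    split_ifs with hkd
    · rw [sub_self, norm_zero]
      positivity
    · rw [sub_zero, norm_div, Complex.norm_natCast]
      have hk0 : (0 : ℝ) < k := by exact_mod_cast hk.1
      rw [div_le_div_iff₀ hk0 hN0]
      push Not at hkd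
      rw [Nat.div_lt_iff_lt_mul (by omega)] at hkd
      have h3 : (N : ℝ) ≤ k * d := by exact_mod_cast hkd.le
      have h4 := hb k
      nlinarith
  refine (sum_le_sum h2).trans (le_of_eq ?_)
  rw [sum_const, Nat.card_Icc, Nat.add_sub_cancel, nsmul_eq_mul]
  field_simp

theorem harm_tail (d N : ℕ) (hd : 1 ≤ d) : |∑ k ∈ Icc 1 N, 1 / (k : ℝ) - ∑ k ∈ Icc 1 (N / d), 1 / (k : ℝ)| ≤ d := by
  have h := norm_tail_le (fun _ => 1) (fun _ => by simp) d N hd
  have h1 : ∑ k ∈ Icc 1 N, (1 : ℂ) / (k : ℂ) - ∑ k ∈ Icc 1 (N / d), (1 : ℂ) / (k : ℂ) =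
      ((∑ k ∈ Icc 1 N, 1 / (k : ℝ) - ∑ k ∈ Icc 1 (N / d), 1 / (k : ℝ) : ℝ) : ℂ) := by
    push_cast
    rfl
  rw [h1, Complex.norm_real] at h
  exact h

/-- harmonic sum over the multiples of `d` -/
theorem harm_dvd (d N : ℕ) (hd : 1 ≤ d) :
    ∑ m ∈ Icc 1 N, 1 / (m : ℝ) * (if d ∣ m then 1 else 0) = 1 / d * ∑ k ∈ Icc 1 (N / d), 1 / (k : ℝ) := by
  have h1 : ∀ m ∈ Icc 1 N, 1 / (m : ℝ) * (if d ∣ m then 1 else 0) = (if d ∣ m then 1 / (m : ℝ) else 0) := by
    intro m _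
    split_ifs <;> simp
  rw [sum_congr rfl h1, sum_dvd_Icc _ d N hd, mul_sum]
  refine sum_congr rfl fun k _ => ?_
  push_cast
  rw [one_div_mul_one_div]

theorem harm_mono (N M : ℕ) (h : M ≤ N) : ∑ k ∈ Icc 1 M, 1 / (k : ℝ) ≤ ∑ k ∈ Icc 1 N, 1 / (k : ℝ) :=
  sum_le_sum_of_subset_of_nonneg (Icc_subset_Icc_right h) fun _ _ _ => by positivity

/-- Turan - Kubilius -/
theorem tk (P : Finset ℕ) (hP : ∀ p ∈ P, p.Prime) (N : ℕ) :
    ∑ m ∈ Icc 1 N, 1 / (m : ℝ) * (∑ p ∈ P, ((if p ∣ m then 1 else 0) - 1 / (p : ℝ))) ^ 2 ≤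
      (∑ p ∈ P, 1 / (p : ℝ)) * ∑ k ∈ Icc 1 N, 1 / (k : ℝ) + 3 * (#P : ℝ) ^ 2 := by
  set E : ℕ → ℕ → ℝ := fun p m => (if p ∣ m then 1 else 0) - 1 / (p : ℝ) with hE
  set Hn : ℕ → ℝ := fun n => ∑ k ∈ Icc 1 n, 1 / (k : ℝ) with hHn
  have h1 : ∑ m ∈ Icc 1 N, 1 / (m : ℝ) * (∑ p ∈ P, E p m) ^ 2 = ∑ p ∈ P, ∑ q ∈ P, ∑ m ∈ Icc 1 N, 1 / (m : ℝ) * (E p m * E q m) := by
    have h2 : ∀ m ∈ Icc 1 N, 1 / (m : ℝ) * (∑ p ∈ P, E p m) ^ 2 = ∑ p ∈ P, ∑ q ∈ P, 1 / (m : ℝ) * (E p m * E q m) := by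
      intro m _
      rw [sq, sum_mul_sum, mul_sum]
      exact sum_congr rfl fun p _ => by rw [mul_sum]
    rw [sum_congr rfl h2, sum_comm]
    refine sum_congr rfl fun p _ => ?_
    rw [sum_comm]
  have h3 : ∀ p ∈ P, ∀ q ∈ P, ∑ m ∈ Icc 1 N, 1 / (m : ℝ) * (E p m * E q m) ≤ (if p = q then 1 / (p : ℝ) * Hn N else 0) + 3 := by
    intro p hp q hq
    have hp0 : (2 : ℝ) ≤ p := by exact_mod_cast (hP p hp).two_le
    have hq0 : (2 : ℝ) ≤ q := by exact_mod_cast (hP q hq).two_le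
    have hp1 : 1 ≤ p := (hP p hp).one_le
    have hq1 : 1 ≤ q := (hP q hq).one_le
    have hHp : Hn (N / p) ≤ Hn N := harm_mono _ _ (Nat.div_le_self _ _)
    have hH0 : 0 ≤ Hn (N / p) := sum_nonneg fun _ _ => by positivity
    by_cases hpq : p = q
    · subst hpq
      rw [if_pos rfl]
      have h4 : ∑ m ∈ Icc 1 N, 1 / (m : ℝ) * (E p m * E p m) = (1 - 2 / p) * (1 / p * Hn (N / p)) + 1 / p ^ 2 * Hn N := by
        rw [← harm_dvd p N hp1, mul_sum, hHn]
        dsimp only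
        rw [mul_sum, ← sum_add_distrib]
        refine sum_congr rfl fun m _ => ?_
        rw [hE]
        dsimp only
        split_ifs <;> ring
      rw [h4]
      have h5 : (1 - 2 / (p : ℝ)) * (1 / p * Hn (N / p)) ≤ (1 - 2 / p) * (1 / p * Hn N) := by
        have h6 : (0 : ℝ) ≤ 1 - 2 / p := by
          rw [sub_nonneg, div_le_one (by linarith)]
          exact hp0
        gcongr
      have h6 : (1 - 2 / (p : ℝ)) * (1 / p * Hn N) + 1 / p ^ 2 * Hn N = 1 / p * Hn N - 1 / p ^ 2 * Hn N := by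
        field_simp
        ring
      have h7 : 0 ≤ 1 / (p : ℝ) ^ 2 * Hn N := by
        have := hH0.trans hHp
        positivity
      linarith
    · rw [if_neg hpq, zero_add]
      have hcop : Nat.Coprime p q := (Nat.coprime_primes (hP p hp) (hP q hq)).mpr hpq
      have h4 : ∑ m ∈ Icc 1 N, 1 / (m : ℝ) * (E p m * E q m) = 1 / ((p : ℝ) * q) * Hn (N / (p * q)) - 1 / q * (1 / p * Hn (N / p))
          - 1 / p * (1 / q * Hn (N / q)) + 1 / ((p : ℝ) * q) * Hn N := by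
        have h5 : 1 / ((p : ℝ) * q) * Hn (N / (p * q)) = ∑ m ∈ Icc 1 N, 1 / (m : ℝ) * (if p * q ∣ m then 1 else 0) := by
          rw [harm_dvd (p * q) N (Nat.mul_pos hp1 hq1)]
          push_cast
          rfl
        rw [h5, ← harm_dvd p N hp1, ← harm_dvd q N hq1, mul_sum, mul_sum, hHn]
        dsimp only
        rw [mul_sum, ← sum_sub_distrib, ← sum_sub_distrib, ← sum_add_distrib]
        refine sum_congr rfl fun m _ => ?_
        rw [hE]
        dsimp only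
        have h6 : (p * q ∣ m) ↔ (p ∣ m ∧ q ∣ m) := by
          constructor
          · intro h
            exact ⟨(dvd_mul_right p q).trans h, (dvd_mul_left q p).trans h⟩
          · intro h
            exact hcop.mul_dvd_of_dvd_of_dvd h.1 h.2
        by_cases h7 : p ∣ m <;> by_cases h8 : q ∣ m <;> simp only [h6, h7, h8, and_self, and_true, and_false, if_true, if_false] <;> ring
      rw [h4]
      have b1 := harm_tail (p * q) N (Nat.mul_pos hp1 hq1)
      have b2 := harm_tail p N hp1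
      have b3 := harm_tail q N hq1
      rw [abs_le] at b1 b2 b3
      push_cast at b1
      have h5 : 1 / ((p : ℝ) * q) * Hn (N / (p * q)) - 1 / q * (1 / p * Hn (N / p)) - 1 / p * (1 / q * Hn (N / q)) + 1 / ((p : ℝ) * q) * Hn N
          = (Hn (N / (p * q)) - Hn (N / p) - Hn (N / q) + Hn N) / (p * q) := by
        field_simp
      rw [h5, div_le_iff₀ (by positivity)]
      have h6 : Hn (N / (p * q)) - Hn (N / p) - Hn (N / q) + Hn N ≤ p * q + p + q := by
        have c1 := b1.1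
        have c2 := b2.2
        have c3 := b3.2
        have d1 : Hn (N / (p * q)) ≤ Hn N := harm_mono _ _ (Nat.div_le_self _ _)
        simp only [hHn] at c1 c2 c3 d1 ⊢
        nlinarith
      have h7 : (p : ℝ) ≤ p * q := by nlinarith
      have h8 : (q : ℝ) ≤ p * q := by nlinarith
      linarith
  rw [h1]
  refine (sum_le_sum fun p hp => sum_le_sum fun q hq => h3 p hp q hq).trans (le_of_eq ?_)
  have h4 : ∀ p ∈ P, ∑ q ∈ P, ((if p = q then 1 / (p : ℝ) * Hn N else 0) + 3) = 1 / (p : ℝ) * Hn N + 3 * (#P : ℝ) := by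
    intro p hp
    rw [sum_add_distrib, sum_ite_eq, if_pos hp, sum_const, nsmul_eq_mul]
    ring
  rw [sum_congr rfl h4, sum_add_distrib, ← sum_mul, sum_const, nsmul_eq_mul]
  ring

/-- the sum of the reciprocals of the squares of different primes -/
theorem sum_sq_inv_le (P : Finset ℕ) (hP : ∀ p ∈ P, p.Prime) : ∑ p ∈ P, 1 / (p : ℝ) ^ 2 ≤ 1 := by
  obtain ⟨M, hM⟩ : ∃ M : ℕ, ∀ p ∈ P, p ≤ M := ⟨P.sup id, fun p hp => le_sup (f := id) hp⟩
  have h1 : ∀ M : ℕ, ∑ p ∈ Icc 2 M, 1 / (p : ℝ) ^ 2 ≤ 1 := by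
    intro M
    rcases Nat.lt_or_ge M 2 with h | h
    · rw [Icc_eq_empty (by omega)]
      simp
    have h2 : ∑ p ∈ Icc 2 M, 1 / (p : ℝ) ^ 2 ≤ (1 : ℝ) - 1 / (M : ℝ) := by
      induction M, h using Nat.le_induction with
      | base => norm_num
      | succ n hn ih =>
        rw [Finset.sum_Icc_succ_top (by omega)]
        have hn0 : (0 : ℝ) < n := by
          have : 0 < n := by omega
          exact_mod_cast this
        have h3 : 1 / ((n + 1 : ℕ) : ℝ) ^ 2 ≤ 1 / (n : ℝ) - 1 / ((n + 1 : ℕ) : ℝ) := by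
          push_cast
          rw [div_sub_div _ _ hn0.ne' (by positivity), div_le_div_iff₀ (by positivity) (by positivity)]
          ring_nf
          nlinarith
        linarith
    have h3 : (0 : ℝ) ≤ 1 / (M : ℝ) := by positivity
    linarith
  refine le_trans (sum_le_sum_of_subset_of_nonneg ?_ fun _ _ _ => by positivity) (h1 M)
  intro p hp
  rw [mem_Icc]
  exact ⟨(hP p hp).two_le, hM p hp⟩

end Pool.Agent.Lib.MP_3e612f_nt.NF
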